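import Pool.Agent.KSE.BvE

/-!
Module AvgA. A map of Clifford modules from isometries of the quadratic spaces.

Proof. Apply `KSP.avg` (`Pool/Agent/KSP/Avg.lean`) with `q = BvE.qq h` on `Fin (BvE.NN K m) → ℂ`
(`Pool/Agent/KSE/BvE.lean`; `BvE.pc σ` is the component at `σ`; `qq h x y = ∑ σ, pr h σ (pc σ x) (pc (cj σ) y)`, and
`cj σ = σ` here; symmetric and nondegenerate: see the lemmas there), `τ x = ∑ σ, tau (ts t σ) (pc σ x)` (the lemmas of
`BvE` on the Clifford relation of `τ`), `τ' x = ∑ σ, tau (ts t' (φ σ)) (g σ *ᵥ pc σ x)`, `Φ = LinearMap.id`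
(not zero, since `V`, `V'` are nontrivial). The Clifford relation for `τ'`: `tau_pair` (`cj (φ σ) = φ σ`,
`pr h' (φ σ) (g σ *ᵥ x) (g σ *ᵥ y) = pr h σ x y` by `hg`) and `tau_anti` (`φ` injective). Take `x`, `y` concentrated at
`σ` in the result.
-/

namespace Pool.Agent.KSR

open Module Matrix NumberField Pool.Agent.Helper7 Pool.Agent.KS Pool.Agent.Ball
  Pool.Agent.Helper28.GPC Pool.Agent.KSE

variable {V V' : Type} [AddCommGroup V] [Module ℂ V] [AddCommGroup V'] [Module ℂ V']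
    {K K' : Type} [Field K] [NumberField K] [Field K'] [NumberField K'] {c : K →+* K}
    {c' : K' →+* K'} {m m' : ℕ} {h : Matrix (Fin m) (Fin m) K} {h' : Matrix (Fin m') (Fin m') K'}
    {t : Fin m → K → Module.End ℂ V} {t' : Fin m' → K' → Module.End ℂ V'}

theorem exists_F [Nontrivial V] [Nontrivial V']
    (hconj : ∀ (σ : K →+* ℂ) (x : K), cj σ x = σ (c x)) (hh : ∀ a b, c (h a b) = h b a)
    (hnd : h.det ≠ 0)
    (hcl : ∀ a b x y, t a x * t b y + t b y * t a x =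
      (2 * ((Algebra.trace ℚ K (x * c y * h a b) : ℚ) : ℂ)) • 1)
    (hconj' : ∀ (σ : K' →+* ℂ) (x : K'), cj σ x = σ (c' x))
    (hcl' : ∀ a b x y, t' a x * t' b y + t' b y * t' a x =
      (2 * ((Algebra.trace ℚ K' (x * c' y * h' a b) : ℚ) : ℂ)) • 1)
    (hreal : ∀ σ : K →+* ℂ, cj σ = σ) (hreal' : ∀ σ : K' →+* ℂ, cj σ = σ)
    (φ : (K →+* ℂ) → (K' →+* ℂ)) (hφ : Function.Injective φ)
    (g : (K →+* ℂ) → Matrix (Fin m') (Fin m) ℂ)
    (hg : ∀ σ, (g σ)ᵀ * h'.map (φ σ) * g σ = h.map σ) :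
    ∃ F : V →ₗ[ℂ] V', F ≠ 0 ∧ ∀ σ x y, F ∘ₗ (tau (ts t σ) x * tau (ts t σ) y) =
      (tau (ts t' (φ σ)) (g σ *ᵥ x) * tau (ts t' (φ σ)) (g σ *ᵥ y)) ∘ₗ F := by
  have hpr : ∀ σ x y, pr h' (φ σ) (g σ *ᵥ x) (g σ *ᵥ y) = pr h σ x y := by
    intro σ x y
    rw [pr, pr, ← hg σ, ← Matrix.mulVec_mulVec, ← Matrix.mulVec_mulVec,
      Matrix.dotProduct_mulVec x (g σ)ᵀ, Matrix.vecMul_transpose]
  let T : (Fin (BvE.NN K m) → ℂ) →ₗ[ℂ] Module.End ℂ V' :=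
    ∑ σ : K →+* ℂ, tau (ts t' (φ σ)) ∘ₗ Matrix.toLin' (g σ) ∘ₗ BvE.pc σ
  have hT : ∀ x, T x = ∑ σ : K →+* ℂ, tau (ts t' (φ σ)) (g σ *ᵥ BvE.pc σ x) := by
    intro x
    show (∑ σ : K →+* ℂ, tau (ts t' (φ σ)) ∘ₗ Matrix.toLin' (g σ) ∘ₗ BvE.pc σ) x = _
    rw [LinearMap.sum_apply]
    refine Finset.sum_congr rfl fun σ _ => ?_
    rw [LinearMap.comp_apply, LinearMap.comp_apply, Matrix.toLin'_apply]
  have hTc : ∀ x y, T x * T y + T y * T x = (2 * BvE.qq h x y) • 1 := by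
    intro x y
    rw [hT, hT, Finset.sum_mul_sum, Finset.sum_mul_sum, Finset.sum_comm (f := fun i j =>
      tau (ts t' (φ i)) (g i *ᵥ BvE.pc i y) * tau (ts t' (φ j)) (g j *ᵥ BvE.pc j x)),
      ← Finset.sum_add_distrib, BvE.qq_apply, Finset.mul_sum, Finset.sum_smul]
    refine Finset.sum_congr rfl fun σ _ => ?_
    rw [← Finset.sum_add_distrib, Finset.sum_eq_single σ]
    · have e1 := tau_pair hconj' hcl' (φ σ) (g σ *ᵥ BvE.pc σ x) (g σ *ᵥ BvE.pc σ y)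
      rw [hreal' (φ σ), hpr] at e1
      rw [hreal σ]
      exact e1
    · intro ρ _ hρ
      refine tau_anti hconj' hcl' ?_ _ _
      rw [hreal' (φ σ)]
      exact fun e => hρ (hφ e)
    · intro h; exact absurd (Finset.mem_univ _) h
  have hΦ : (LinearMap.id : (V →ₗ[ℂ] V') →ₗ[ℂ] (V →ₗ[ℂ] V')) ≠ 0 := by
    intro h0
    obtain ⟨v, hv⟩ := exists_ne (0 : V)
    obtain ⟨v', hv'⟩ := exists_ne (0 : V')
    apply hv
    rw [← Module.forall_dual_apply_eq_zero_iff ℂ v]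
    intro f
    have e1 : f.smulRight v' = 0 := by
      have e2 := LinearMap.congr_fun h0 (f.smulRight v')
      exact e2
    have e3 := LinearMap.congr_fun e1 v
    rw [LinearMap.smulRight_apply, LinearMap.zero_apply] at e3
    exact (smul_eq_zero.mp e3).resolve_right hv'
  obtain ⟨F, hF, hF0⟩ := KSP.avg (BvE.qq h) (BvE.qq_symm hconj hh) (BvE.qq_nd hconj hh hnd)
    (BvE.tt t) T (BvE.tt_cliff hconj hcl) hTc LinearMap.id (fun _ _ => rfl) (fun _ _ => rfl) hΦ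
  refine ⟨F, hF0, fun σ x y => ?_⟩
  have h1 : ∀ x, ∃ v : Fin (BvE.NN K m) → ℂ, BvE.tt t v = tau (ts t σ) x ∧
      T v = tau (ts t' (φ σ)) (g σ *ᵥ x) := by
    intro x
    obtain ⟨v, hv1, hv2⟩ := BvE.exists_pc (K := K) σ x
    refine ⟨v, ?_, ?_⟩
    · rw [BvE.tt_apply, Finset.sum_eq_single σ, hv1]
      · intro ρ _ hρ
        rw [hv2 ρ hρ, map_zero]
      · intro h; exact absurd (Finset.mem_univ _) h
    · rw [hT, Finset.sum_eq_single σ, hv1]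
      · intro ρ _ hρ
        rw [hv2 ρ hρ, Matrix.mulVec_zero, map_zero]
      · intro h; exact absurd (Finset.mem_univ _) h
  obtain ⟨v, hv1, hv2⟩ := h1 x
  obtain ⟨w, hw1, hw2⟩ := h1 y
  rw [← hv1, ← hw1, ← hv2, ← hw2]
  exact hF v w

end Pool.Agent.KSR
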