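import Pool.Agent.KSR.FamA
import Pool.Agent.KSE.CoreR

/-!
Module HallA. The symmetries act at the place `(i, σ₀ i)` by all skew matrices.

Proof. This is the first part of the proof of `KSE.coreR` (`Pool/Agent/KSE/CoreR.lean`), up to `hall`:
`irrR`, `exists_hypE` and `so_main2'` (`m i ≠ 5`) show that every skew endomorphism is of the form
`Matrix.toLin' (M σ₀)` with `M ∈ HH n P i (t i) γ`; copy it. The symmetry `X` of `M` has a family
`M' ∈ RRE` (`exists_famE`), and `M' ⟨i, σ⟩ = M σ` by `fam_unique`.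
-/

open scoped ComplexConjugate

namespace Pool.Agent.KSR

open Module Matrix NumberField Pool.Agent.Helper7 Pool.Agent.KS Pool.Agent.Ball
  Pool.Agent.Helper28.GPC Pool.Agent.KSE

variable {I : Type} [Fintype I] [DecidableEq I] (n : I → ℕ) {κ : I → Type}
    [∀ i, Fintype (κ i)] [∀ i, DecidableEq (κ i)] {ϖ : ℂ} (hϖ : ϖ ≠ 0) (P : ∀ i, PData (κ i) ϖ)
    {K : I → Type} [∀ i, Field (K i)] [∀ i, NumberField (K i)] {c : ∀ i, K i →+* K i} {m : I → ℕ}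
    {h : ∀ i, Matrix (Fin (m i)) (Fin (m i)) (K i)}
    {t : ∀ i, Fin (m i) → K i → Module.End ℂ (κ i → ℂ)}
    (S : ∀ i, MD (P i) (c i) (h i) (t i)) {k : ℕ}
    (γ : MultilinearMap ℂ (fun _ : Fin (2 * k) => HW κ n) ℂ)
    (hB : ∀ v : Fin (2 * k) → HW κ n, (∀ r, IsRatP n P (v r)) → ∃ q : ℚ, γ v = ϖ ^ k * q)
    (hA : ∀ v : Fin (2 * k) → HW κ n, (∀ r i m j, IsAlgebraic ℚ (v r i m j)) →
      IsAlgebraic ℚ (γ v))
    (hP : ∀ i, HNd (P i))
    (hreal : ∀ i (σ : K i →+* ℂ), cj σ = σ)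
    (σ₀ : ∀ i, K i →+* ℂ)
    (hsig : ∀ i, Sig2 (CoreR.GR (h i) (σ₀ i)) ∨ Sig2 (-(CoreR.GR (h i) (σ₀ i))))
    (hdef : ∀ i (σ : K i →+* ℂ), σ ≠ σ₀ i → Definite ((h i).map (cj σ)))
    (hT : ∀ X : GG κ, IsInv n P γ X → ∀ i, ∃ M, ActM (t i) (X.1 i) M)
    (hTg : ∀ g : (i : I) → Module.End ℂ (κ i → ℂ), IsGrp n P γ g → ∀ i,
      ∃ A : (K i →+* ℂ) → Matrix (Fin (m i)) (Fin (m i)) ℂ, ∀ σ x,
        g i * tau (ts (t i) σ) x = tau (ts (t i) σ) (A σ *ᵥ x) * g i)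

include hϖ S hB hA hP hreal hsig hdef hT hTg in
theorem RRE_hall (i : I) (hne : Nonempty (κ i)) (hm3 : 3 ≤ m i) (hm5 : m i ≠ 5)
    (Z : Matrix (Fin (m i)) (Fin (m i)) ℂ) (hZ : SkP (h i) (σ₀ i) Z) :
    ∃ M ∈ RRE n P h t γ, M ⟨i, σ₀ i⟩ = Z := by
  have hσ : cj (σ₀ i) = σ₀ i := hreal i (σ₀ i)
  have hT' : ∀ X : GG κ, IsInv n P γ X → ∃ M, ActM (t i) (X.1 i) M := fun X hX => hT X hX i
  have hTg' : ∀ g : (i : I) → Module.End ℂ (κ i → ℂ), IsGrp n P γ g →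
      ∃ A : (K i →+* ℂ) → Matrix (Fin (m i)) (Fin (m i)) ℂ, ∀ σ x,
        g i * tau (ts (t i) σ) x = tau (ts (t i) σ) (A σ *ᵥ x) * g i := fun g hg => hTg g hg i
  have hnt : Nontrivial (κ i → ℂ) := inferInstance
  set G := CoreR.GR (h i) (σ₀ i) with hGdef
  have hG : Gᵀ = G := CoreR.GR_tr (S i).conj (S i).herm hσ
  have hbp : ∀ x y, bil G x y = pr (h i) (σ₀ i) x y := CoreR.bil_pr hσ
  obtain ⟨hpos, hneg⟩ := CoreR.signs hσ hm3 (hsig i)
  have hirr : ∀ W : Submodule ℂ (Fin (m i) → ℂ),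
      (∀ M ∈ HH n P i (t i) γ, ∀ v ∈ W, M (σ₀ i) *ᵥ v ∈ W) → W = ⊥ ∨ W = ⊤ := fun W hW =>
    irrR n hϖ P i (S i) γ hB hA (hP i) hne hT' hm3 (σ₀ i) hσ W hW
  obtain ⟨B, hBH, hB0, hBz, hBc, -, hBspan⟩ := exists_hypE n hϖ P i (S i) γ hB hne hT' (σ₀ i) hpos hneg
    (fun σ h1 _ => hdef i σ h1) hTg' hirr
  -- the Lie algebra and the ideal
  let g : Submodule ℂ (Module.End ℂ (Fin (m i) → ℂ)) :=
    { carrier := {X | ∃ M ∈ HH n P i (t i) γ, X = Matrix.toLin' (M (σ₀ i))}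
      add_mem' := by
        rintro _ _ ⟨M, hM, rfl⟩ ⟨N, hN, rfl⟩
        exact ⟨M + N, HH_add n P i γ hM hN, by rw [Pi.add_apply, map_add]⟩
      zero_mem' := ⟨0, HH_zero n P i γ, by rw [Pi.zero_apply, map_zero]⟩
      smul_mem' := by
        rintro r _ ⟨M, hM, rfl⟩
        exact ⟨r • M, HH_smul n P i γ r hM, by rw [Pi.smul_apply, map_smul]⟩ }
  have hmul : ∀ M N : Matrix (Fin (m i)) (Fin (m i)) ℂ,
      (Matrix.toLin' M : Module.End ℂ (Fin (m i) → ℂ)) * Matrix.toLin' N -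
        Matrix.toLin' N * Matrix.toLin' M = Matrix.toLin' (M * N - N * M) := by
    intro M N
    rw [map_sub, Matrix.toLin'_mul, Matrix.toLin'_mul]
    rfl
  have hskw : ∀ M ∈ HH n P i (t i) γ, ∀ u v,
      bil G (Matrix.toLin' (M (σ₀ i)) u) v + bil G u (Matrix.toLin' (M (σ₀ i)) v) = 0 := by
    intro M hM u v
    have h1 := (skewM_iff M).1 (HH_skew n P i (S i) γ hne hM) (σ₀ i) u v
    rw [hσ] at h1
    rw [hbp, hbp, Matrix.toLin'_apply, Matrix.toLin'_apply]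
    exact h1
  have hBg : Matrix.toLin' (B (σ₀ i)) ∈ g := ⟨B, hBH, rfl⟩
  have hB0' : (Matrix.toLin' (B (σ₀ i)) : Module.End ℂ (Fin (m i) → ℂ)) ≠ 0 := by
    intro h1
    exact hB0 ((LinearEquiv.map_eq_zero_iff _).1 h1)
  have hstar : ∀ (M : Matrix (Fin (m i)) (Fin (m i)) ℂ) (v : Fin (m i) → ℂ),
      (M.map conj) *ᵥ v = star (M *ᵥ star v) := by
    intro M v
    funext a
    rw [Pi.star_apply, Matrix.mulVec, Matrix.mulVec, dotProduct, dotProduct, star_sum]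
    refine Finset.sum_congr rfl fun b _ => ?_
    rw [Matrix.map_apply, Pi.star_apply, star_mul', star_star]
    rfl
  have hall : ∀ X : Module.End ℂ (Fin (m i) → ℂ),
      (∀ u v, bil G (X u) v + bil G u (X v) = 0) → X ∈ g := by
    intro X hX
    refine so_main2' hm3 hm5 G hG (hsig i) g ?_ ?_ ?_ ?_ (Matrix.toLin' (B (σ₀ i))) hBg hB0' ?_ ?_
      X hX
    · rintro _ ⟨M, hM, rfl⟩ _ ⟨N, hN, rfl⟩
      exact ⟨M * N - N * M, HH_bracket n P i γ hM hN, hmul _ _⟩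
    · rintro _ ⟨M, hM, rfl⟩
      exact hskw M hM
    · rintro _ ⟨M, hM, rfl⟩
      have htw := HH_twist n hϖ P i (S i) γ hB hM (starRingAut : ℂ ≃+* ℂ)
      refine ⟨_, ⟨_, htw, rfl⟩, fun v => ?_⟩
      rw [Matrix.toLin'_apply, Matrix.toLin'_apply]
      have h2 : twM (starRingAut : ℂ ≃+* ℂ) M (σ₀ i) = (M (σ₀ i)).map conj := by
        unfold twM
        have h3 : ((starRingAut : ℂ ≃+* ℂ).symm : ℂ →+* ℂ).comp (σ₀ i) = σ₀ i := by
          refine Eq.trans ?_ hσ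
          ext x
          rfl
        rw [h3]
        rfl
      rw [h2, hstar]
    · intro W hW
      exact hirr W fun M hM v hv => by
        have := hW _ ⟨M, hM, rfl⟩ v hv
        rwa [Matrix.toLin'_apply] at this
    · intro v
      rw [Matrix.toLin'_apply, Matrix.toLin'_apply]
      have h1 := hBc (σ₀ i)
      rw [hσ] at h1
      conv_lhs => rw [h1]
      rw [hstar, star_star]
    · intro v
      have := hBspan v
      simpa only [Matrix.toLin'_apply] using this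
  obtain ⟨M, ⟨X, hX, hX2, hXM⟩, hMZ⟩ := hall (Matrix.toLin' Z) (skw_of_skP hσ hZ)
  obtain ⟨M', hM', hM'X⟩ := exists_famE S hreal hT X hX hX2
  refine ⟨M', hM', ?_⟩
  have h1 := fam_unique S i (hM'X i) hXM
  have h2 : M' ⟨i, σ₀ i⟩ = M (σ₀ i) := congrFun h1 (σ₀ i)
  rw [h2]
  exact (Matrix.toLin'.injective hMZ).symm

end Pool.Agent.KSR
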