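import Pool.Agent.KSP.Fam3

/-!
Module IdealW. An ideal of the orthogonal Lie algebra which contains the operator `wed q e f` of a
hyperbolic pair is everything (also in dimension 4).

`wed q x y` is the operator `z ↦ q(x, z) y - q(y, z) x` up to sign (see `wed_apply`). Brackets:
`[M, wed q x y] = wed q (M x) y + wed q x (M y)` for `M` skew (compute on vectors). So, for `z`
orthogonal to `e` and `f`, the bracket of `wed q e f` with `wed q e z` is `± wed q e z`, and
`wed q e z`, `wed q f z` are in `𝔞`; for `z, z'` orthogonal to `e, f` the bracket of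
`wed q e z` with `wed q f z'` is a combination of `wed q z z'` and `q(z, z') • wed q e f`
(up to signs), so `wed q z z'` is in `𝔞`. Every vector is a combination of `e`, `f` and a vector orthogonal to
both (`x = q(x, f) e + q(x, e) f + z`), so all `wed q x y` are in `𝔞`, and they span the skew operators
(`KSP.skw_mem_span` in `Pool/Agent/KSP/Fam1.lean`).
-/

namespace Pool.Agent.KSR

open Module Matrix Pool.Agent.Helper7 Pool.Agent.KS

namespace IdealW

open Pool.Agent.KSP.LinkIso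

variable {V : Type} [AddCommGroup V] [Module ℂ V] {q : LinearMap.BilinForm ℂ V} {e f : V}
  {𝔞 : Submodule ℂ (Module.End ℂ V)}

lemma mem_ez (H : Hyp q e f) (hbr : ∀ A ∈ 𝔞, ∀ M, KSP.Skw q M → M * A - A * M ∈ 𝔞)
    (h0 : wed q e f ∈ 𝔞) {z : V} (h1 : q e z = 0) (h2 : q f z = 0) : wed q e z ∈ 𝔞 := by
  have h3 := hbr _ h0 (wed q e z) (wed_skew H.s e z)
  rw [wed_comm (wed_skew H.s e z)] at h3
  have h4 : wed q e z e = 0 := by
    rw [wed_apply, H.s z e, h1, H.ee, zero_smul, zero_smul, sub_zero]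
  have h5 : wed q e z f = - z := by
    rw [wed_apply, H.s z f, h2, H.ef, zero_smul, one_smul, zero_sub]
  rw [h4, h5, wed_zero_left, zero_add, KSP.LinkIso.wed_swap, wed_neg_left, neg_neg,
    KSP.LinkIso.wed_swap] at h3
  exact (Submodule.neg_mem_iff _).1 h3

lemma mem_zz (H : Hyp q e f) (hbr : ∀ A ∈ 𝔞, ∀ M, KSP.Skw q M → M * A - A * M ∈ 𝔞)
    (h0 : wed q e f ∈ 𝔞) {z z' : V} (h1 : q e z = 0) (h2 : q f z = 0) (h3 : q e z' = 0)
    (h4 : q f z' = 0) : wed q z z' ∈ 𝔞 := by
  have h0' : wed q f e ∈ 𝔞 := by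
    rw [KSP.LinkIso.wed_swap]
    exact Submodule.neg_mem _ h0
  have h5 : wed q f z' ∈ 𝔞 := mem_ez H.swap hbr h0' h4 h3
  have h6 := hbr _ h5 (wed q e z) (wed_skew H.s e z)
  rw [wed_comm (wed_skew H.s e z)] at h6
  have h7 : wed q e z f = - z := by
    rw [wed_apply, H.s z f, h2, H.ef, zero_smul, one_smul, zero_sub]
  have h8 : wed q e z z' = q z z' • e := by
    rw [wed_apply, h3, zero_smul, sub_zero]
  rw [h7, h8, wed_neg_left, wed_smul_right] at h6
  have h9 := Submodule.sub_mem _ h6 (Submodule.smul_mem _ (q z z') h0')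
  rw [add_sub_cancel_right] at h9
  exact (Submodule.neg_mem_iff _).1 h9

lemma mem_all (H : Hyp q e f) (hbr : ∀ A ∈ 𝔞, ∀ M, KSP.Skw q M → M * A - A * M ∈ 𝔞)
    (h0 : wed q e f ∈ 𝔞) (x y : V) : wed q x y ∈ 𝔞 := by
  have h0' : wed q f e ∈ 𝔞 := by
    rw [KSP.LinkIso.wed_swap]
    exact Submodule.neg_mem _ h0
  have key : ∀ z, q e z = 0 → q f z = 0 → ∀ y, wed q z y ∈ 𝔞 := by
    intro z h1 h2 y
    rw [pj_exp (q := q) (e := e) (f := f) y, wed_add_right, wed_add_right, wed_smul_right,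
      wed_smul_right]
    refine Submodule.add_mem _ (Submodule.add_mem _ (Submodule.smul_mem _ _ ?_)
      (Submodule.smul_mem _ _ ?_)) ?_
    · rw [KSP.LinkIso.wed_swap]
      exact Submodule.neg_mem _ (mem_ez H hbr h0 h1 h2)
    · rw [KSP.LinkIso.wed_swap]
      exact Submodule.neg_mem _ (mem_ez H.swap hbr h0' h2 h1)
    · exact mem_zz H hbr h0 h1 h2 (pj_e H y) (pj_f H y)
  have keye : ∀ y, wed q e y ∈ 𝔞 := by
    intro y
    rw [pj_exp (q := q) (e := e) (f := f) y, wed_add_right, wed_add_right, wed_smul_right,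
      wed_smul_right, KSP.LinkIso.wed_self, smul_zero, zero_add]
    exact Submodule.add_mem _ (Submodule.smul_mem _ _ h0) (mem_ez H hbr h0 (pj_e H y) (pj_f H y))
  have keyf : ∀ y, wed q f y ∈ 𝔞 := by
    intro y
    rw [pj_exp (q := q) (e := e) (f := f) y, wed_add_right, wed_add_right, wed_smul_right,
      wed_smul_right, KSP.LinkIso.wed_self, smul_zero, add_zero]
    exact Submodule.add_mem _ (Submodule.smul_mem _ _ h0')
      (mem_ez H.swap hbr h0' (pj_f H y) (pj_e H y))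
  rw [pj_exp (q := q) (e := e) (f := f) x, wed_add_left, wed_add_left, wed_smul_left,
    wed_smul_left]
  exact Submodule.add_mem _ (Submodule.add_mem _ (Submodule.smul_mem _ _ (keye y))
    (Submodule.smul_mem _ _ (keyf y))) (key _ (pj_e H x) (pj_f H x) y)

end IdealW

theorem ideal_wed {n : ℕ} (q : LinearMap.BilinForm ℂ (Fin n → ℂ))
    (hs : ∀ x y, q x y = q y x) (hnd : q.Nondegenerate)
    (𝔞 : Submodule ℂ (Module.End ℂ (Fin n → ℂ)))
    (hbr : ∀ A ∈ 𝔞, ∀ M, KSP.Skw q M → M * A - A * M ∈ 𝔞) (e f : Fin n → ℂ) (he : q e e = 0)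
    (hf : q f f = 0) (hef : q e f = 1) (h0 : wed q e f ∈ 𝔞) (M : Module.End ℂ (Fin n → ℂ))
    (hM : KSP.Skw q M) : M ∈ 𝔞 := by
  have H : KSP.LinkIso.Hyp q e f := ⟨hs, he, hf, hef⟩
  have h := KSP.skw_mem_span q hs hnd M hM
  refine Submodule.span_le.2 ?_ h
  rintro A ⟨x, y, rfl⟩
  exact IdealW.mem_all H hbr h0 x y

end Pool.Agent.KSR
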