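import Pool.Agent.KSR.HypA
import Pool.Agent.KSR.HallA
import Pool.Agent.KSR.IdealW

/-!
Module CoreW. All skew matrices at `(i, σ₀ i)`, with the value zero at all definite places of all factors.

Proof. Let `𝔞` be the set of all `Matrix.toLin' (M ⟨i, σ₀ i⟩)` with `M ∈ RRE`, `M p = 0` for all `p` with
`p.2 ≠ σ₀ p.1` (a submodule). By `RRE_hall` and `RRE_bracket` it is stable under brackets with all skew
operators (`skP_of_skw`, `skw_of_skP`; `hreal`), and it contains the operator of `exists_hypA`. `ideal_wed` for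
`q = bil (CoreR.GR (h i) (σ₀ i))` (symmetric: `bil_symm`, `CoreR.GR_tr`; nondegenerate: `nondeg_of_sig`; the values of
`q` on `cx e`, `cx f`: `bil_cx`).
-/

namespace Pool.Agent.KSR

open Module Matrix NumberField Pool.Agent.Helper7 Pool.Agent.KS Pool.Agent.Ball
  Pool.Agent.Helper28.GPC Pool.Agent.KSE

variable {I : Type} [Fintype I] [DecidableEq I] (n : I → ℕ) {κ : I → Type}
    [∀ i, Fintype (κ i)] [∀ i, DecidableEq (κ i)] {ϖ : ℂ} (hϖ : ϖ ≠ 0) (P : ∀ i, PData (κ i) ϖ)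
    {K : I → Type} [∀ i, Field (K i)] [∀ i, NumberField (K i)] {c : ∀ i, K i →+* K i} {m : I → ℕ}
    {h : ∀ i, Matrix (Fin (m i)) (Fin (m i)) (K i)}
    {t : ∀ i, Fin (m i) → K i → Module.End ℂ (κ i → ℂ)}
    (S : ∀ i, MD (P i) (c i) (h i) (t i)) {k : ℕ}
    (γ : MultilinearMap ℂ (fun _ : Fin (2 * k) => HW κ n) ℂ)
    (hB : ∀ v : Fin (2 * k) → HW κ n, (∀ r, IsRatP n P (v r)) → ∃ q : ℚ, γ v = ϖ ^ k * q)
    (hA : ∀ v : Fin (2 * k) → HW κ n, (∀ r i m j, IsAlgebraic ℚ (v r i m j)) →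
      IsAlgebraic ℚ (γ v))
    (hP : ∀ i, HNd (P i))
    (hreal : ∀ i (σ : K i →+* ℂ), cj σ = σ)
    (σ₀ : ∀ i, K i →+* ℂ)
    (hsig : ∀ i, Sig2 (CoreR.GR (h i) (σ₀ i)) ∨ Sig2 (-(CoreR.GR (h i) (σ₀ i))))
    (hdef : ∀ i (σ : K i →+* ℂ), σ ≠ σ₀ i → Definite ((h i).map (cj σ)))
    (hT : ∀ X : GG κ, IsInv n P γ X → ∀ i, ∃ M, ActM (t i) (X.1 i) M)
    (hTg : ∀ g : (i : I) → Module.End ℂ (κ i → ℂ), IsGrp n P γ g → ∀ i,
      ∃ A : (K i →+* ℂ) → Matrix (Fin (m i)) (Fin (m i)) ℂ, ∀ σ x,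
        g i * tau (ts (t i) σ) x = tau (ts (t i) σ) (A σ *ᵥ x) * g i)

include hϖ S hB hA hP hreal hsig hdef hT hTg in
theorem RRE_core0 (i : I) (hne : Nonempty (κ i)) (hm3 : 3 ≤ m i) (hm5 : m i ≠ 5)
    (Z : Matrix (Fin (m i)) (Fin (m i)) ℂ) (hZ : SkP (h i) (σ₀ i) Z) :
    ∃ M ∈ RRE n P h t γ, M ⟨i, σ₀ i⟩ = Z ∧ ∀ p : PL K, p.2 ≠ σ₀ p.1 → M p = 0 := by
  have hσ : cj (σ₀ i) = σ₀ i := hreal i _
  have hG : (CoreR.GR (h i) (σ₀ i))ᵀ = CoreR.GR (h i) (σ₀ i) :=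
    CoreR.GR_tr (S i).conj (S i).herm hσ
  have hall : ∀ Z, SkP (h i) (σ₀ i) Z → ∃ M ∈ RRE n P h t γ, M ⟨i, σ₀ i⟩ = Z := fun Z hZ =>
    RRE_hall n hϖ P S γ hB hA hP hreal σ₀ hsig hdef hT hTg i hne hm3 hm5 Z hZ
  obtain ⟨e, f, he, hf, hef, B, hB1, hB2, hB3⟩ :=
    exists_hypA n hϖ P S γ hB hreal σ₀ hsig hdef hT i hne hm3 hall
  let 𝔞 : Submodule ℂ (Module.End ℂ (Fin (m i) → ℂ)) :=
    { carrier := {X | ∃ M ∈ RRE n P h t γ, X = Matrix.toLin' (M ⟨i, σ₀ i⟩) ∧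
        ∀ p : PL K, p.2 ≠ σ₀ p.1 → M p = 0}
      add_mem' := by
        rintro _ _ ⟨M, hM, rfl, h1⟩ ⟨N, hN, rfl, h2⟩
        exact ⟨M + N, Submodule.add_mem _ hM hN, by rw [Pi.add_apply, map_add], fun p h3 => by
          rw [Pi.add_apply, h1 p h3, h2 p h3, add_zero]⟩
      zero_mem' := ⟨0, Submodule.zero_mem _, by rw [Pi.zero_apply, map_zero], fun p _ => rfl⟩
      smul_mem' := by
        rintro r _ ⟨M, hM, rfl, h1⟩
        exact ⟨r • M, Submodule.smul_mem _ r hM, by rw [Pi.smul_apply, map_smul], fun p h3 => by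
          rw [Pi.smul_apply, h1 p h3, smul_zero]⟩ }
  have hmul : ∀ M N : Matrix (Fin (m i)) (Fin (m i)) ℂ,
      (Matrix.toLin' M : Module.End ℂ (Fin (m i) → ℂ)) * Matrix.toLin' N -
        Matrix.toLin' N * Matrix.toLin' M = Matrix.toLin' (M * N - N * M) := by
    intro M N
    rw [map_sub, Matrix.toLin'_mul, Matrix.toLin'_mul]
    rfl
  have hbr : ∀ A ∈ 𝔞, ∀ M, KSP.Skw (bil (CoreR.GR (h i) (σ₀ i))) M → M * A - A * M ∈ 𝔞 := by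
    rintro _ ⟨N, hN, rfl, h1⟩ M hM
    obtain ⟨M', hM', h2⟩ := hall _ (skP_of_skw hσ hM)
    refine ⟨M' * N - N * M', RRE_bracket hM' hN, ?_, fun p h3 => ?_⟩
    · have h3 : (M' * N - N * M') ⟨i, σ₀ i⟩ =
          M' ⟨i, σ₀ i⟩ * N ⟨i, σ₀ i⟩ - N ⟨i, σ₀ i⟩ * M' ⟨i, σ₀ i⟩ := rfl
      rw [h3, ← hmul, h2, Matrix.toLin'_toMatrix']
    · have h4 : (M' * N - N * M') p = M' p * N p - N p * M' p := rfl
      rw [h4, h1 p h3, Matrix.mul_zero, Matrix.zero_mul, sub_zero]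
  have h0 : wed (bil (CoreR.GR (h i) (σ₀ i))) (cx e) (cx f) ∈ 𝔞 :=
    ⟨B, hB1, by rw [hB2, Matrix.toLin'_toMatrix'], hB3⟩
  obtain ⟨M, hM, h1, h2⟩ := ideal_wed (bil (CoreR.GR (h i) (σ₀ i))) (fun x y => bil_symm hG x y)
    (nondeg_of_sig _ hG (hsig i)) 𝔞 hbr (cx e) (cx f)
    (by rw [bil_cx, he, Complex.ofReal_zero]) (by rw [bil_cx, hf, Complex.ofReal_zero])
    (by rw [bil_cx, hef, Complex.ofReal_one]) h0 (Matrix.toLin' Z) (skw_of_skP hσ hZ)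
  exact ⟨M, hM, (Matrix.toLin'.injective h1).symm, h2⟩

end Pool.Agent.KSR
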