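import Pool.Agent.KSE.FinalE
import Pool.Agent.KSP.Goursat

/-!
Products of Kuga-Satake varieties with real multiplication: common definitions.

`K i` is a totally real field, `h i` a symmetric matrix over it, `t i` the operators of a Kuga-Satake
structure (`KSE.MD`). The places are the pairs `(i, σ)`, `σ : K i → ℂ`. `RRE` is the Lie algebra of the
symmetries of a class, as a space of families of skew matrices.
-/

namespace Pool.Agent.KSR

open Module Matrix NumberField Pool.Agent.Helper7 Pool.Agent.KS Pool.Agent.Ball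
  Pool.Agent.Helper28.GPC Pool.Agent.KSE

/-- the places -/
abbrev PL {I : Type} (K : I → Type) [∀ i, Field (K i)] : Type := Σ i, (K i →+* ℂ)

section single

variable {K : Type} [Field K] {m : ℕ}

/-- skew matrices at a place -/
def SkP (h : Matrix (Fin m) (Fin m) K) (σ : K →+* ℂ) (Z : Matrix (Fin m) (Fin m) ℂ) : Prop :=
  Zᵀ * h.map σ + h.map σ * Z = 0

variable {h : Matrix (Fin m) (Fin m) K} {σ : K →+* ℂ}

lemma SkP.zero : SkP h σ 0 := by
  rw [SkP, Matrix.transpose_zero, Matrix.zero_mul, Matrix.mul_zero, add_zero]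

lemma SkP.add {Z W : Matrix (Fin m) (Fin m) ℂ} (hZ : SkP h σ Z) (hW : SkP h σ W) :
    SkP h σ (Z + W) := by
  rw [SkP] at hZ hW ⊢
  rw [Matrix.transpose_add, Matrix.add_mul, Matrix.mul_add, add_add_add_comm, hZ, hW, add_zero]

lemma SkP.smul (r : ℂ) {Z : Matrix (Fin m) (Fin m) ℂ} (hZ : SkP h σ Z) : SkP h σ (r • Z) := by
  rw [SkP] at hZ ⊢
  rw [Matrix.transpose_smul, Matrix.smul_mul, Matrix.mul_smul, ← smul_add, hZ, smul_zero]

lemma SkP.bracket {Z W : Matrix (Fin m) (Fin m) ℂ} (hZ : SkP h σ Z) (hW : SkP h σ W) :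
    SkP h σ (Z * W - W * Z) := by
  rw [SkP] at hZ hW ⊢
  have h1 : Zᵀ * h.map σ = -(h.map σ * Z) := eq_neg_of_add_eq_zero_left hZ
  have h2 : Wᵀ * h.map σ = -(h.map σ * W) := eq_neg_of_add_eq_zero_left hW
  rw [Matrix.transpose_sub, Matrix.transpose_mul, Matrix.transpose_mul, Matrix.sub_mul,
    Matrix.mul_assoc, Matrix.mul_assoc, h1, h2, Matrix.mul_neg, Matrix.mul_neg, ← Matrix.mul_assoc,
    ← Matrix.mul_assoc, h1, h2, Matrix.mul_sub]
  noncomm_ring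

/-- skew matrices are skew for the pairing -/
lemma skP_iff (Z : Matrix (Fin m) (Fin m) ℂ) : SkP h σ Z ↔
    ∀ x y, pr h σ (Z *ᵥ x) y + pr h σ x (Z *ᵥ y) = 0 := by
  have e : ∀ (x y : Fin m → ℂ), pr h σ (Z *ᵥ x) y + pr h σ x (Z *ᵥ y) =
      x ⬝ᵥ ((Zᵀ * h.map σ + h.map σ * Z) *ᵥ y) := by
    intro x y
    have e1 : Z *ᵥ x ⬝ᵥ h.map ⇑σ *ᵥ y = x ⬝ᵥ (Zᵀ * h.map ⇑σ) *ᵥ y := by
      rw [← Matrix.mulVec_mulVec, Matrix.dotProduct_mulVec x Zᵀ, Matrix.vecMul_transpose]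
    rw [pr, pr, Matrix.add_mulVec, dotProduct_add, Matrix.mulVec_mulVec, e1]
  constructor
  · intro hZ x y
    rw [SkP] at hZ
    rw [e, hZ, Matrix.zero_mulVec, dotProduct_zero]
  · intro hZ
    rw [SkP]
    ext a b
    have h1 := hZ (Pi.single a 1) (Pi.single b 1)
    rw [e, single_dotProduct, one_mul, Matrix.mulVec_single_one] at h1
    exact h1

/-- skew matrices as skew operators for the real form -/
lemma skw_of_skP (hσ : cj σ = σ) {Z : Matrix (Fin m) (Fin m) ℂ} (hZ : SkP h σ Z) :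
    KSP.Skw (bil (CoreR.GR h σ)) (Matrix.toLin' Z) := by
  intro x y
  rw [CoreR.bil_pr hσ, CoreR.bil_pr hσ, Matrix.toLin'_apply, Matrix.toLin'_apply]
  exact (skP_iff Z).mp hZ x y

lemma skP_of_skw (hσ : cj σ = σ) {A : Module.End ℂ (Fin m → ℂ)}
    (hA : KSP.Skw (bil (CoreR.GR h σ)) A) : SkP h σ (LinearMap.toMatrix' A) := by
  rw [skP_iff]
  intro x y
  have h1 := hA x y
  rw [CoreR.bil_pr hσ, CoreR.bil_pr hσ] at h1
  have e : ∀ z, LinearMap.toMatrix' A *ᵥ z = A z := fun z => by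
    rw [← Matrix.toLin'_apply, Matrix.toLin'_toMatrix']
  rw [e, e]
  exact h1

end single

section fam

variable {I : Type} [Fintype I] [DecidableEq I] (n : I → ℕ) {κ : I → Type}
    [∀ i, Fintype (κ i)] [∀ i, DecidableEq (κ i)] {ϖ : ℂ} (P : ∀ i, PData (κ i) ϖ)
    {K : I → Type} [∀ i, Field (K i)] [∀ i, NumberField (K i)] {m : I → ℕ}
    (h : ∀ i, Matrix (Fin (m i)) (Fin (m i)) (K i))
    (t : ∀ i, Fin (m i) → K i → Module.End ℂ (κ i → ℂ)) {k : ℕ}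
    (γ : MultilinearMap ℂ (fun _ : Fin (2 * k) => HW κ n) ℂ)

/-- the action of the symmetries without multiplier, at all places -/
def RRE : Submodule ℂ (∀ p : PL K, Matrix (Fin (m p.1)) (Fin (m p.1)) ℂ) where
  carrier := {M | (∀ p : PL K, SkP (h p.1) p.2 (M p)) ∧ ∃ X : GG κ, IsInv n P γ X ∧ X.2 = 0 ∧
    ∀ i, ActM (t i) (X.1 i) (fun σ => M ⟨i, σ⟩)}
  add_mem' := by
    rintro M M' ⟨h1, X, hX, hX2, hXM⟩ ⟨h1', X', hX', hX'2, hXM'⟩
    refine ⟨fun i => (h1 i).add (h1' i), X + X', hX.add _ _ _ hX', ?_,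
      fun i => (hXM i).add (hXM' i)⟩
    show X.2 + X'.2 = 0
    rw [hX2, hX'2, add_zero]
  zero_mem' := ⟨fun p => SkP.zero, 0, IsInv.zero _ _ _, rfl, fun i => ActM.zero⟩
  smul_mem' := by
    rintro r M ⟨h1, X, hX, hX2, hXM⟩
    refine ⟨fun i => (h1 i).smul r, r • X, hX.smul _ _ _ r, ?_, fun i => (hXM i).smul r⟩
    show r * X.2 = 0
    rw [hX2, mul_zero]

/-- the twist of a family by an automorphism of `ℂ` -/
def twP (τ : ℂ ≃+* ℂ) (M : ∀ p : PL K, Matrix (Fin (m p.1)) (Fin (m p.1)) ℂ) :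
    ∀ p : PL K, Matrix (Fin (m p.1)) (Fin (m p.1)) ℂ :=
  fun p => (M ⟨p.1, (τ.symm : ℂ →+* ℂ).comp p.2⟩).map τ

variable {n P h t γ}

lemma mem_RRE {M : ∀ p : PL K, Matrix (Fin (m p.1)) (Fin (m p.1)) ℂ} :
    M ∈ RRE n P h t γ ↔ (∀ p : PL K, SkP (h p.1) p.2 (M p)) ∧
      ∃ X : GG κ, IsInv n P γ X ∧ X.2 = 0 ∧ ∀ i, ActM (t i) (X.1 i) (fun σ => M ⟨i, σ⟩) := Iff.rfl

lemma RRE_bracket {M M' : ∀ p : PL K, Matrix (Fin (m p.1)) (Fin (m p.1)) ℂ}
    (h1 : M ∈ RRE n P h t γ) (h2 : M' ∈ RRE n P h t γ) : M * M' - M' * M ∈ RRE n P h t γ := by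
  obtain ⟨h1, X, hX, hX2, hXM⟩ := h1
  obtain ⟨h1', X', hX', hX'2, hXM'⟩ := h2
  refine ⟨fun p => (h1 p).bracket (h1' p), X * X' - X' * X, hX.bracket _ _ _ hX', ?_,
    fun i => (hXM i).bracket (hXM' i)⟩
  show X.2 * X'.2 - X'.2 * X.2 = 0
  rw [hX2, hX'2]; ring

end fam

end Pool.Agent.KSR
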