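import Pool.Agent.KSE.GamE

/-!
Module GamA. The analogue of `KSP.exists_gam_all` (`Pool/Agent/KSP/Fam1.lean`): iterate `KSE.exists_gamE`
(`Pool/Agent/KSE/GamE.lean`, one index `i`) over all indices.

Proof: the induction over `Finset I` of `KSP.exists_gam_all`. `KSE.exists_gamE` does not say that
`0 < k'`; we copy its (short) proof to get a version with `0 < k'` in the conclusion.
-/

namespace Pool.Agent.KSR

open Module Matrix NumberField Pool.Agent.Helper7 Pool.Agent.KS Pool.Agent.Ball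
  Pool.Agent.Helper28.GPC Pool.Agent.KSE

/-- `KSE.exists_gamE` with `0 < k'`. -/
private theorem GamA_one {I : Type} [Fintype I] [DecidableEq I] {κ : I → Type}
    [∀ i, Fintype (κ i)] [∀ i, DecidableEq (κ i)] {ϖ : ℂ} (P : ∀ i, PData (κ i) ϖ)
    (i : I) {K : Type} [Field K] [NumberField K] {c : K →+* K} {m : ℕ}
    {h : Matrix (Fin m) (Fin m) K} {t : Fin m → K → Module.End ℂ (κ i → ℂ)}
    (S : MD (P i) c h t) (n : I → ℕ) {k : ℕ} (hk : 0 < k)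
    (α : MultilinearMap ℂ (fun _ : Fin (2 * k) => HW κ n) ℂ)
    (hB : ∀ v : Fin (2 * k) → HW κ n, (∀ r, IsRatP n P (v r)) → ∃ q : ℚ, α v = ϖ ^ k * q)
    (hA : ∀ v : Fin (2 * k) → HW κ n, (∀ r i m j, IsAlgebraic ℚ (v r i m j)) →
      IsAlgebraic ℚ (α v)) :
    ∃ (n' : I → ℕ) (k' : ℕ) (γ : MultilinearMap ℂ (fun _ : Fin (2 * k') => HW κ n') ℂ), 0 < k' ∧
      (∀ v : Fin (2 * k') → HW κ n', (∀ r, IsRatP n' P (v r)) → ∃ q : ℚ, γ v = ϖ ^ k' * q) ∧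
      (∀ v : Fin (2 * k') → HW κ n', (∀ r i m j, IsAlgebraic ℚ (v r i m j)) →
        IsAlgebraic ℚ (γ v)) ∧
      (∀ X : GG κ, IsInv n' P γ X → IsInv n P α X ∧ ∃ M, ActM t (X.1 i) M) ∧
      ∀ g : (i : I) → Module.End ℂ (κ i → ℂ), IsGrp n' P γ g → IsGrp n P α g ∧
        ∃ A : (K →+* ℂ) → Matrix (Fin m) (Fin m) ℂ, ∀ σ x,
          g i * tau (ts t σ) x = tau (ts t σ) (A σ *ᵥ x) * g i := by
  rcases isEmpty_or_nonempty (κ i) with hκ | hκ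
  · have hsub : ∀ f f' : Module.End ℂ (κ i → ℂ), f = f' := fun f f' => by
      apply LinearMap.ext
      intro v
      funext j
      exact hκ.elim j
    exact ⟨n, k, α, hk, hB, hA, fun X hX => ⟨hX, 0, fun σ x => hsub _ _⟩,
      fun g hg => ⟨hg, 0, fun σ x => hsub _ _⟩⟩
  obtain ⟨β, hβB, hβA, hβ1, hβ2⟩ := exists_betaE (P i) S
  suffices h : ∀ s : Finset (Fin (finrank ℚ K)), ∃ (n' : I → ℕ) (k' : ℕ)
      (γ : MultilinearMap ℂ (fun _ : Fin (2 * k') => HW κ n') ℂ), 0 < k' ∧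
      (∀ v : Fin (2 * k') → HW κ n', (∀ r, IsRatP n' P (v r)) → ∃ q : ℚ, γ v = ϖ ^ k' * q) ∧
      (∀ v : Fin (2 * k') → HW κ n', (∀ r i m j, IsAlgebraic ℚ (v r i m j)) →
        IsAlgebraic ℚ (γ v)) ∧
      (∀ X : GG κ, IsInv n' P γ X → IsInv n P α X ∧
        ∀ d ∈ s, actForm (X.1 i) (β d) = (2 * X.2) • β d) ∧
      ∀ g : (i : I) → Module.End ℂ (κ i → ℂ), IsGrp n' P γ g → IsGrp n P α g ∧
        ∀ d ∈ s, ∀ v : Fin 4 → κ i → ℂ, β d (fun r => g i (v r)) = β d v by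
    obtain ⟨n', k', γ, h0, h1, h2, h3, h4⟩ := h Finset.univ
    exact ⟨n', k', γ, h0, h1, h2, fun X hX => ⟨(h3 X hX).1, hβ1 (X.1 i) X.2 (hX.pol i)
      fun d => (h3 X hX).2 d (Finset.mem_univ _)⟩,
      fun g hg => ⟨(h4 g hg).1, hβ2 (g i) (hg.pol i)
        fun d => (h4 g hg).2 d (Finset.mem_univ _)⟩⟩
  intro s
  induction s using Finset.induction_on with
  | empty =>
    exact ⟨n, k, α, hk, hB, hA, fun X hX => ⟨hX, fun i hi => absurd hi (Finset.notMem_empty i)⟩,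
      fun g hg => ⟨hg, fun i hi => absurd hi (Finset.notMem_empty i)⟩⟩
  | insert d s _ ih =>
    obtain ⟨n', k', γ, hk', h1, h2, h3, h4⟩ := ih
    obtain ⟨γ', hγB, hγA, hγ1, hγ2⟩ :=
      KSP.exists_gamF n' P hk' γ h1 h2 i hκ (β d) (hβB d) (hβA d)
    refine ⟨fun l => n' l + 1, k' + 2, γ', by omega, hγB, hγA, fun X hX => ?_, fun g hg => ?_⟩
    · obtain ⟨e1, e2⟩ := hγ1 X hX
      obtain ⟨e3, e4⟩ := h3 X e1
      refine ⟨e3, fun j hj => ?_⟩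
      rcases Finset.mem_insert.mp hj with rfl | hj
      · exact e2
      · exact e4 j hj
    · obtain ⟨e1, e2⟩ := hγ2 g hg
      obtain ⟨e3, e4⟩ := h4 g e1
      refine ⟨e3, fun j hj => ?_⟩
      rcases Finset.mem_insert.mp hj with rfl | hj
      · exact e2
      · exact e4 j hj

theorem exists_gam_allE {I : Type} [Fintype I] [DecidableEq I] {κ : I → Type}
    [∀ i, Fintype (κ i)] [∀ i, DecidableEq (κ i)] {ϖ : ℂ} (P : ∀ i, PData (κ i) ϖ)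
    {K : I → Type} [∀ i, Field (K i)] [∀ i, NumberField (K i)] {c : ∀ i, K i →+* K i} {m : I → ℕ}
    {h : ∀ i, Matrix (Fin (m i)) (Fin (m i)) (K i)}
    {t : ∀ i, Fin (m i) → K i → Module.End ℂ (κ i → ℂ)}
    (S : ∀ i, MD (P i) (c i) (h i) (t i)) (n : I → ℕ) {k : ℕ} (hk : 0 < k)
    (α : MultilinearMap ℂ (fun _ : Fin (2 * k) => HW κ n) ℂ)
    (hB : ∀ v : Fin (2 * k) → HW κ n, (∀ r, IsRatP n P (v r)) → ∃ q : ℚ, α v = ϖ ^ k * q)
    (hA : ∀ v : Fin (2 * k) → HW κ n, (∀ r i m j, IsAlgebraic ℚ (v r i m j)) →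
      IsAlgebraic ℚ (α v)) :
    ∃ (n' : I → ℕ) (k' : ℕ) (γ : MultilinearMap ℂ (fun _ : Fin (2 * k') => HW κ n') ℂ),
      (∀ v : Fin (2 * k') → HW κ n', (∀ r, IsRatP n' P (v r)) → ∃ q : ℚ, γ v = ϖ ^ k' * q) ∧
      (∀ v : Fin (2 * k') → HW κ n', (∀ r i m j, IsAlgebraic ℚ (v r i m j)) →
        IsAlgebraic ℚ (γ v)) ∧
      (∀ X : GG κ, IsInv n' P γ X → IsInv n P α X ∧ ∀ i, ∃ M, ActM (t i) (X.1 i) M) ∧
      ∀ g : (i : I) → Module.End ℂ (κ i → ℂ), IsGrp n' P γ g → IsGrp n P α g ∧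
        ∀ i, ∃ A : (K i →+* ℂ) → Matrix (Fin (m i)) (Fin (m i)) ℂ, ∀ σ x,
          g i * tau (ts (t i) σ) x = tau (ts (t i) σ) (A σ *ᵥ x) * g i := by
  suffices h' : ∀ s : Finset I, ∃ (n' : I → ℕ) (k' : ℕ)
      (γ : MultilinearMap ℂ (fun _ : Fin (2 * k') => HW κ n') ℂ), 0 < k' ∧
      (∀ v : Fin (2 * k') → HW κ n', (∀ r, IsRatP n' P (v r)) → ∃ q : ℚ, γ v = ϖ ^ k' * q) ∧
      (∀ v : Fin (2 * k') → HW κ n', (∀ r i m j, IsAlgebraic ℚ (v r i m j)) →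
        IsAlgebraic ℚ (γ v)) ∧
      (∀ X : GG κ, IsInv n' P γ X → IsInv n P α X ∧
        ∀ i ∈ s, ∃ M, ActM (t i) (X.1 i) M) ∧
      ∀ g : (i : I) → Module.End ℂ (κ i → ℂ), IsGrp n' P γ g → IsGrp n P α g ∧
        ∀ i ∈ s, ∃ A : (K i →+* ℂ) → Matrix (Fin (m i)) (Fin (m i)) ℂ, ∀ σ x,
          g i * tau (ts (t i) σ) x = tau (ts (t i) σ) (A σ *ᵥ x) * g i by
    obtain ⟨n', k', γ, -, h1, h2, h3, h4⟩ := h' Finset.univ
    exact ⟨n', k', γ, h1, h2,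
      fun X hX => ⟨(h3 X hX).1, fun i => (h3 X hX).2 i (Finset.mem_univ i)⟩,
      fun g hg => ⟨(h4 g hg).1, fun i => (h4 g hg).2 i (Finset.mem_univ i)⟩⟩
  intro s
  induction s using Finset.induction_on with
  | empty =>
    exact ⟨n, k, α, hk, hB, hA, fun X hX => ⟨hX, fun i hi => absurd hi (Finset.notMem_empty i)⟩,
      fun g hg => ⟨hg, fun i hi => absurd hi (Finset.notMem_empty i)⟩⟩
  | insert i s _ ih =>
    obtain ⟨n', k', γ, hk', h1, h2, h3, h4⟩ := ih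
    obtain ⟨n'', k'', γ', hk'', hγB, hγA, hγ1, hγ2⟩ := GamA_one P i (S i) n' hk' γ h1 h2
    refine ⟨n'', k'', γ', hk'', hγB, hγA, fun X hX => ?_, fun g hg => ?_⟩
    · obtain ⟨e1, e2⟩ := hγ1 X hX
      obtain ⟨e3, e4⟩ := h3 X e1
      refine ⟨e3, fun j hj => ?_⟩
      rcases Finset.mem_insert.mp hj with rfl | hj
      · exact e2
      · exact e4 j hj
    · obtain ⟨e1, e2⟩ := hγ2 g hg
      obtain ⟨e3, e4⟩ := h4 g e1
      refine ⟨e3, fun j hj => ?_⟩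
      rcases Finset.mem_insert.mp hj with rfl | hj
      · exact e2
      · exact e4 j hj

end Pool.Agent.KSR
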