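import Pool.Agent.KSR.FamA
import Pool.Agent.KSP.LinkHyp
import Pool.Agent.KSP.LinkIso
import Pool.Agent.Helper84.AutC

/-!
Module IsoA. A link between the hyperbolic places of two factors gives isometries at all places.

Write `(τ, σ) ↦ τ ∘ σ` for automorphisms `τ` of `ℂ`.
Step 1 (the place `σ₀`). As in `KSP.hom_of_link` (`Pool/Agent/KSP/Fam3.lean`): let `R` be the image of `RRE` in
pairs of endomorphisms, `M ↦ (toLin' (M ⟨i, σ₀ i⟩), toLin' (M ⟨j, σ₀ j⟩))`. Its projections are onto the skew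
operators by `core` (for `i` and `j`), it is stable under complex conjugation (`RRE_twist` for `starRingAut`;
`cj σ = σ`), and `hl` is the link. `KSP.link_hyp` and `KSP.link_iso` (`q = bil (CoreR.GR (h i) (σ₀ i))`, see
`CoreR.bil_pr`) give `g₀ : (Fin (m i) → ℂ) ≃ₗ[ℂ] (Fin (m j) → ℂ)`; let `G₀` be its matrix:
`G₀ᵀ * (h j).map (σ₀ j) * G₀ = (h i).map (σ₀ i)` and `M ⟨j, σ₀ j⟩ * G₀ = G₀ * M ⟨i, σ₀ i⟩` for `M ∈ RRE`.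
Step 2. `τ ∘ σ₀ i = σ₀ i ↔ τ ∘ σ₀ j = σ₀ j`. If `τ ∘ σ₀ i = σ₀ i` and `ρ = τ ∘ σ₀ j ≠ σ₀ j`: the twist of
the link by `τ` says `M ⟨i, σ₀ i⟩ = 0 ↔ M ⟨j, ρ⟩ = 0` for `M ∈ RRE` (apply `hl` to `twP τ.symm M`); but `core` for `i`
and a skew `Z ≠ 0` gives `M` with `M ⟨i, σ₀ i⟩ = Z ≠ 0` and `M ⟨j, ρ⟩ = 0`. The other direction is symmetric.
Step 3. For `σ : K i →+* ℂ` choose `τ σ` with `τ σ ∘ σ₀ i = σ` (`Helper84.exists_aut`), let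
`φ σ = τ σ ∘ σ₀ j` and `g σ = G₀.map (τ σ)`. By step 2 `φ` is bijective. Apply `τ σ` to the equations of step 1
(for the second one use `twP (τ σ).symm M ∈ RRE`).
-/

namespace Pool.Agent.KSR

open Module Matrix NumberField Pool.Agent.Helper7 Pool.Agent.KS Pool.Agent.Ball
  Pool.Agent.Helper28.GPC Pool.Agent.KSE

namespace IsoA

section single

variable {K : Type} [Field K] [NumberField K] {m : ℕ}

lemma exists_skP {h : Matrix (Fin m) (Fin m) K} (hm : 2 ≤ m) (hs : hᵀ = h) (hd : h.det ≠ 0)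
    (σ : K →+* ℂ) : ∃ Z, SkP h σ Z ∧ Z ≠ 0 := by
  obtain ⟨H, hH⟩ : ∃ H : Matrix (Fin m) (Fin m) ℂ, H = h.map σ := ⟨_, rfl⟩
  have hHs : Hᵀ = H := by rw [hH, ← Matrix.transpose_map, hs]
  have hHd : IsUnit H.det := by
    rw [hH]
    have h1 : (h.map σ).det = σ h.det := by
      rw [RingHom.map_det, RingHom.mapMatrix_apply]
    rw [h1]
    exact IsUnit.mk0 _ ((map_ne_zero σ).2 hd)
  obtain ⟨W, hW⟩ : ∃ W : Matrix (Fin m) (Fin m) ℂ, W = Matrix.single ⟨0, by omega⟩ ⟨1, by omega⟩ 1 -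
      Matrix.single ⟨1, by omega⟩ ⟨0, by omega⟩ 1 := ⟨_, rfl⟩
  have hWt : Wᵀ = -W := by
    rw [hW, Matrix.transpose_sub, Matrix.transpose_single, Matrix.transpose_single, neg_sub]
  have hW0 : W ≠ 0 := by
    intro h0
    have h1 := congrFun (congrFun h0 ⟨0, by omega⟩) ⟨1, by omega⟩
    rw [hW, Matrix.sub_apply, Matrix.zero_apply, Matrix.single_apply_same,
      Matrix.single_apply_of_ne] at h1
    · norm_num at h1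
    · intro h2
      have := congrArg Fin.val h2.1
      simp at this
  have hZ : H * (H⁻¹ * W) = W := by
    rw [← Matrix.mul_assoc, Matrix.mul_nonsing_inv _ hHd, Matrix.one_mul]
  refine ⟨H⁻¹ * W, ?_, fun h0 => hW0 ?_⟩
  · rw [SkP, ← hH, Matrix.transpose_mul, Matrix.transpose_nonsing_inv, hHs, hZ, Matrix.mul_assoc,
      Matrix.nonsing_inv_mul _ hHd, Matrix.mul_one, hWt, neg_add_cancel]
  · rw [← hZ, h0, Matrix.mul_zero]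

end single

end IsoA

variable {I : Type} [Fintype I] [DecidableEq I] (n : I → ℕ) {κ : I → Type}
    [∀ i, Fintype (κ i)] [∀ i, DecidableEq (κ i)] {ϖ : ℂ} (hϖ : ϖ ≠ 0) (P : ∀ i, PData (κ i) ϖ)
    {K : I → Type} [∀ i, Field (K i)] [∀ i, NumberField (K i)] {c : ∀ i, K i →+* K i} {m : I → ℕ}
    {h : ∀ i, Matrix (Fin (m i)) (Fin (m i)) (K i)}
    {t : ∀ i, Fin (m i) → K i → Module.End ℂ (κ i → ℂ)}
    (S : ∀ i, MD (P i) (c i) (h i) (t i)) {k : ℕ}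
    (γ : MultilinearMap ℂ (fun _ : Fin (2 * k) => HW κ n) ℂ)
    (hB : ∀ v : Fin (2 * k) → HW κ n, (∀ r, IsRatP n P (v r)) → ∃ q : ℚ, γ v = ϖ ^ k * q)
    (hreal : ∀ i (σ : K i →+* ℂ), cj σ = σ)
    (σ₀ : ∀ i, K i →+* ℂ)
    (hsig : ∀ i, Sig2 (CoreR.GR (h i) (σ₀ i)) ∨ Sig2 (-(CoreR.GR (h i) (σ₀ i))))

namespace IsoA

omit [Fintype I] [DecidableEq I] in
lemma twP_symm (τ : ℂ ≃+* ℂ) (M : ∀ p : PL K, Matrix (Fin (m p.1)) (Fin (m p.1)) ℂ) (l : I)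
    (σ : K l →+* ℂ) : twP τ.symm M ⟨l, σ⟩ = (M ⟨l, (τ : ℂ →+* ℂ).comp σ⟩).map τ.symm := rfl

lemma map_eq_zero' {a b : ℕ} (τ : ℂ ≃+* ℂ) (A : Matrix (Fin a) (Fin b) ℂ) :
    A.map τ = 0 ↔ A = 0 := by
  constructor
  · intro h0
    ext x y
    have h1 := congrFun (congrFun h0 x) y
    rw [Matrix.map_apply, Matrix.zero_apply] at h1
    exact (map_eq_zero_iff τ τ.injective).1 h1
  · rintro rfl
    ext x y
    rw [Matrix.map_apply, Matrix.zero_apply, map_zero]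

include S hreal in
lemma h_symm (i : I) (σ : K i →+* ℂ) : (h i)ᵀ = h i := by
  ext a b
  rw [Matrix.transpose_apply]
  apply σ.injective
  rw [← (S i).herm a b, ← (S i).conj, hreal i]

include hϖ S hB hreal in
lemma stab (i j : I) (hmi : 2 ≤ m i)
    (core : ∀ Z, SkP (h i) (σ₀ i) Z →
      ∃ M ∈ RRE n P h t γ, M ⟨i, σ₀ i⟩ = Z ∧ ∀ p : PL K, p.2 ≠ σ₀ p.1 → M p = 0)
    (hl : ∀ M ∈ RRE n P h t γ, M ⟨i, σ₀ i⟩ = 0 ↔ M ⟨j, σ₀ j⟩ = 0) (τ : ℂ ≃+* ℂ)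
    (hτ : (τ : ℂ →+* ℂ).comp (σ₀ i) = σ₀ i) : (τ : ℂ →+* ℂ).comp (σ₀ j) = σ₀ j := by
  by_contra hρ
  obtain ⟨Z, hZ, hZ0⟩ := exists_skP hmi (h_symm P S hreal i (σ₀ i)) (S i).nd (σ₀ i)
  obtain ⟨M, hM, hMZ, hM0⟩ := core Z hZ
  have h1 := hl (twP τ.symm M) (RRE_twist hϖ S hB hM τ.symm)
  rw [twP_symm, twP_symm, hτ, map_eq_zero', map_eq_zero', hMZ] at h1
  exact hZ0 (h1.2 (hM0 ⟨j, (τ : ℂ →+* ℂ).comp (σ₀ j)⟩ hρ))

include hϖ S hB hreal hsig in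
lemma exists_G0 (i j : I) (hmi : m i = 3 ∨ 6 ≤ m i) (hmj : m j = 3 ∨ 6 ≤ m j)
    (core : ∀ l, l = i ∨ l = j → ∀ Z, SkP (h l) (σ₀ l) Z →
      ∃ M ∈ RRE n P h t γ, M ⟨l, σ₀ l⟩ = Z ∧ ∀ p : PL K, p.2 ≠ σ₀ p.1 → M p = 0)
    (hl : ∀ M ∈ RRE n P h t γ, M ⟨i, σ₀ i⟩ = 0 ↔ M ⟨j, σ₀ j⟩ = 0) :
    ∃ (G₀ : Matrix (Fin (m j)) (Fin (m i)) ℂ) (G₁ : Matrix (Fin (m i)) (Fin (m j)) ℂ),
      G₀ * G₁ = 1 ∧ G₀ᵀ * (h j).map (σ₀ j) * G₀ = (h i).map (σ₀ i) ∧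
      ∀ M ∈ RRE n P h t γ, M ⟨j, σ₀ j⟩ * G₀ = G₀ * M ⟨i, σ₀ i⟩ := by
  have hGi : (CoreR.GR (h i) (σ₀ i))ᵀ = CoreR.GR (h i) (σ₀ i) :=
    CoreR.GR_tr (S i).conj (S i).herm (hreal i (σ₀ i))
  have hGj : (CoreR.GR (h j) (σ₀ j))ᵀ = CoreR.GR (h j) (σ₀ j) :=
    CoreR.GR_tr (S j).conj (S j).herm (hreal j (σ₀ j))
  let pr' : (∀ p : PL K, Matrix (Fin (m p.1)) (Fin (m p.1)) ℂ) →ₗ[ℂ]
      Module.End ℂ (Fin (m i) → ℂ) × Module.End ℂ (Fin (m j) → ℂ) :=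
    ((Matrix.toLin' : Matrix (Fin (m i)) (Fin (m i)) ℂ ≃ₗ[ℂ] _).toLinearMap ∘ₗ
      LinearMap.proj (⟨i, σ₀ i⟩ : PL K)).prod
    ((Matrix.toLin' : Matrix (Fin (m j)) (Fin (m j)) ℂ ≃ₗ[ℂ] _).toLinearMap ∘ₗ
      LinearMap.proj (⟨j, σ₀ j⟩ : PL K))
  obtain ⟨R, hR⟩ : ∃ R, R = (RRE n P h t γ).map pr' := ⟨_, rfl⟩
  have hmem : ∀ X, X ∈ R ↔ ∃ M ∈ RRE n P h t γ,
      (Matrix.toLin' (M ⟨i, σ₀ i⟩), Matrix.toLin' (M ⟨j, σ₀ j⟩)) = X := by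
    intro X
    rw [hR]
    exact Submodule.mem_map
  have hmul : ∀ {d : ℕ} (M N : Matrix (Fin d) (Fin d) ℂ),
      (Matrix.toLin' M : Module.End ℂ (Fin d → ℂ)) * Matrix.toLin' N -
        Matrix.toLin' N * Matrix.toLin' M = Matrix.toLin' (M * N - N * M) := by
    intro d M N
    rw [map_sub, Matrix.toLin'_mul, Matrix.toLin'_mul]
    rfl
  have hbr : ∀ X ∈ R, ∀ Y ∈ R, X * Y - Y * X ∈ R := by
    intro X hX Y hY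
    rw [hmem] at hX hY ⊢
    obtain ⟨M, hM, rfl⟩ := hX
    obtain ⟨M', hM', rfl⟩ := hY
    exact ⟨_, RRE_bracket hM hM', Prod.ext (hmul _ _).symm (hmul _ _).symm⟩
  have hsk : ∀ X ∈ R, KSP.Skw (bil (CoreR.GR (h i) (σ₀ i))) X.1 ∧
      KSP.Skw (bil (CoreR.GR (h j) (σ₀ j))) X.2 := by
    intro X hX
    rw [hmem] at hX
    obtain ⟨M, hM, rfl⟩ := hX
    exact ⟨skw_of_skP (hreal i (σ₀ i)) (hM.1 ⟨i, σ₀ i⟩),
      skw_of_skP (hreal j (σ₀ j)) (hM.1 ⟨j, σ₀ j⟩)⟩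
  have hpr : ∀ A, KSP.Skw (bil (CoreR.GR (h i) (σ₀ i))) A → ∃ X ∈ R, X.1 = A := by
    intro A hA
    obtain ⟨M, hM, hMA, -⟩ := core i (Or.inl rfl) _ (skP_of_skw (hreal i (σ₀ i)) hA)
    exact ⟨_, (hmem _).2 ⟨M, hM, rfl⟩, by rw [hMA, Matrix.toLin'_toMatrix']⟩
  have hpr' : ∀ A, KSP.Skw (bil (CoreR.GR (h j) (σ₀ j))) A → ∃ X ∈ R, X.2 = A := by
    intro A hA
    obtain ⟨M, hM, hMA, -⟩ := core j (Or.inr rfl) _ (skP_of_skw (hreal j (σ₀ j)) hA)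
    exact ⟨_, (hmem _).2 ⟨M, hM, rfl⟩, by rw [hMA, Matrix.toLin'_toMatrix']⟩
  have hl' : ∀ X ∈ R, X.1 = 0 ↔ X.2 = 0 := by
    intro X hX
    rw [hmem] at hX
    obtain ⟨M, hM, rfl⟩ := hX
    rw [LinearEquiv.map_eq_zero_iff, LinearEquiv.map_eq_zero_iff]
    exact hl M hM
  have hstar : ∀ {d : ℕ} (M : Matrix (Fin d) (Fin d) ℂ) (v : Fin d → ℂ),
      (M.map (starRingAut : ℂ ≃+* ℂ)) *ᵥ v = star (M *ᵥ star v) := by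
    intro d M v
    funext a
    rw [Pi.star_apply, Matrix.mulVec, Matrix.mulVec, dotProduct, dotProduct, star_sum]
    refine Finset.sum_congr rfl fun b _ => ?_
    rw [Matrix.map_apply, Pi.star_apply, star_mul', star_star]
    rfl
  have htw : ∀ (M : ∀ p : PL K, Matrix (Fin (m p.1)) (Fin (m p.1)) ℂ) (l : I),
      twP (starRingAut : ℂ ≃+* ℂ) M ⟨l, σ₀ l⟩ = (M ⟨l, σ₀ l⟩).map (starRingAut : ℂ ≃+* ℂ) := by
    intro M l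
    have h3 : ((starRingAut : ℂ ≃+* ℂ).symm : ℂ →+* ℂ).comp (σ₀ l) = σ₀ l := by
      refine Eq.trans ?_ (hreal l (σ₀ l))
      ext x
      rfl
    unfold twP
    rw [h3]
  have hconj : ∀ X ∈ R, ∃ X' ∈ R, (∀ v, X'.1 v = star (X.1 (star v))) ∧
      ∀ v, X'.2 v = star (X.2 (star v)) := by
    intro X hX
    rw [hmem] at hX
    obtain ⟨M, hM, rfl⟩ := hX
    refine ⟨_, (hmem _).2 ⟨_, RRE_twist hϖ S hB hM (starRingAut : ℂ ≃+* ℂ), rfl⟩,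
      fun v => ?_, fun v => ?_⟩
    · rw [Matrix.toLin'_apply, Matrix.toLin'_apply, htw, hstar]
    · rw [Matrix.toLin'_apply, Matrix.toLin'_apply, htw, hstar]
  obtain ⟨e, f, e', f', he, hf, hef, he', hf', hef', hw⟩ :=
    KSP.link_hyp hmi hmj _ hGi (hsig i) _ hGj (hsig j) R hbr hsk hpr hpr' hl' hconj
  obtain ⟨g, hg1, hg2⟩ := KSP.link_iso (by omega) (by omega) (bil (CoreR.GR (h i) (σ₀ i)))
    (bil_symm hGi) (nondeg_of_sig _ hGi (hsig i)) (bil (CoreR.GR (h j) (σ₀ j)))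
    (bil_symm hGj) (nondeg_of_sig _ hGj (hsig j)) R hbr hsk hpr hpr' hl'
    (cx e) (cx f) (cx e') (cx f') (by rw [bil_cx, he]; simp) (by rw [bil_cx, hf]; simp)
    (by rw [bil_cx, hef]; simp) (by rw [bil_cx, he']; simp) (by rw [bil_cx, hf']; simp)
    (by rw [bil_cx, hef']; simp) hw
  obtain ⟨G₀, hG₀⟩ : ∃ G₀ : Matrix (Fin (m j)) (Fin (m i)) ℂ,
    G₀ = LinearMap.toMatrix' (g : (Fin (m i) → ℂ) →ₗ[ℂ] (Fin (m j) → ℂ)) := ⟨_, rfl⟩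
  have hGg : ∀ x, G₀ *ᵥ x = g x := by
    intro x
    rw [hG₀, ← Matrix.toLin'_apply, Matrix.toLin'_toMatrix']
    rfl
  refine ⟨G₀, LinearMap.toMatrix' (g.symm : (Fin (m j) → ℂ) →ₗ[ℂ] (Fin (m i) → ℂ)), ?_, ?_, ?_⟩
  · rw [hG₀, ← LinearMap.toMatrix'_comp]
    have h1 : (g : (Fin (m i) → ℂ) →ₗ[ℂ] (Fin (m j) → ℂ)) ∘ₗ
        (g.symm : (Fin (m j) → ℂ) →ₗ[ℂ] (Fin (m i) → ℂ)) = LinearMap.id := by
      ext1 x
      simp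
    rw [h1, LinearMap.toMatrix'_id]
  · ext a b
    have h1 := hg1 (Pi.single a 1) (Pi.single b 1)
    rw [CoreR.bil_pr (hreal j (σ₀ j)), CoreR.bil_pr (hreal i (σ₀ i)), pr, pr, ← hGg, ← hGg,
      Matrix.mulVec_mulVec] at h1
    have h2 : G₀ *ᵥ Pi.single a 1 ⬝ᵥ ((h j).map (σ₀ j) * G₀) *ᵥ Pi.single b 1 =
        (G₀ᵀ * (h j).map (σ₀ j) * G₀) a b := by
      rw [Matrix.mulVec_single_one, Matrix.mulVec_single_one, Matrix.mul_assoc,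
        Matrix.mul_apply, dotProduct]
      rfl
    rw [← h2, h1, single_dotProduct, one_mul, Matrix.mulVec_single_one]
    rfl
  · intro M hM
    have h1 := hg2 _ ((hmem _).2 ⟨M, hM, rfl⟩)
    apply Matrix.toLin'.injective
    apply LinearMap.ext
    intro x
    have h2 := h1 x
    rw [Matrix.toLin'_apply, Matrix.toLin'_apply, ← hGg, ← hGg, Matrix.mulVec_mulVec,
      Matrix.mulVec_mulVec] at h2
    rw [Matrix.toLin'_apply, Matrix.toLin'_apply]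
    exact h2

end IsoA

include hϖ S hB hreal hsig in
theorem exists_iso (i j : I) (hmi : m i = 3 ∨ 6 ≤ m i) (hmj : m j = 3 ∨ 6 ≤ m j)
    (core : ∀ l, l = i ∨ l = j → ∀ Z, SkP (h l) (σ₀ l) Z →
      ∃ M ∈ RRE n P h t γ, M ⟨l, σ₀ l⟩ = Z ∧ ∀ p : PL K, p.2 ≠ σ₀ p.1 → M p = 0)
    (hl : ∀ M ∈ RRE n P h t γ, M ⟨i, σ₀ i⟩ = 0 ↔ M ⟨j, σ₀ j⟩ = 0) :
    ∃ (φ : (K i →+* ℂ) → (K j →+* ℂ)) (g : (K i →+* ℂ) → Matrix (Fin (m j)) (Fin (m i)) ℂ),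
      Function.Bijective φ ∧ (∀ σ, ∃ g' : Matrix (Fin (m i)) (Fin (m j)) ℂ, g σ * g' = 1) ∧
      (∀ σ, (g σ)ᵀ * (h j).map (φ σ) * g σ = (h i).map σ) ∧
      ∀ M ∈ RRE n P h t γ, ∀ σ, M ⟨j, φ σ⟩ * g σ = g σ * M ⟨i, σ⟩ := by
  obtain ⟨G₀, G₁, hG1, hGh, hGM⟩ :=
    IsoA.exists_G0 n hϖ P S γ hB hreal σ₀ hsig i j hmi hmj core hl
  have st1 : ∀ τ : ℂ ≃+* ℂ, (τ : ℂ →+* ℂ).comp (σ₀ i) = σ₀ i →
      (τ : ℂ →+* ℂ).comp (σ₀ j) = σ₀ j :=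
    IsoA.stab n hϖ P S γ hB hreal σ₀ i j (by omega) (core i (Or.inl rfl)) hl
  have st2 : ∀ τ : ℂ ≃+* ℂ, (τ : ℂ →+* ℂ).comp (σ₀ j) = σ₀ j →
      (τ : ℂ →+* ℂ).comp (σ₀ i) = σ₀ i :=
    IsoA.stab n hϖ P S γ hB hreal σ₀ j i (by omega) (core j (Or.inr rfl))
      (fun M hM => (hl M hM).symm)
  -- equality of two twists
  have key : ∀ {F : Type} [Field F] (s : F →+* ℂ) (τ τ' : ℂ ≃+* ℂ),
      ((τ.trans τ'.symm : ℂ ≃+* ℂ) : ℂ →+* ℂ).comp s = s ↔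
        (τ : ℂ →+* ℂ).comp s = (τ' : ℂ →+* ℂ).comp s := by
    intro F _ s τ τ'
    constructor
    · intro h1
      ext x
      have h2 : τ'.symm (τ (s x)) = s x := RingHom.congr_fun h1 x
      show τ (s x) = τ' (s x)
      rw [← h2, RingEquiv.apply_symm_apply, h2]
    · intro h1
      ext x
      have h2 : τ (s x) = τ' (s x) := RingHom.congr_fun h1 x
      show τ'.symm (τ (s x)) = s x
      rw [h2, RingEquiv.symm_apply_apply]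
  have e12 : ∀ τ τ' : ℂ ≃+* ℂ, (τ : ℂ →+* ℂ).comp (σ₀ i) = (τ' : ℂ →+* ℂ).comp (σ₀ i) ↔
      (τ : ℂ →+* ℂ).comp (σ₀ j) = (τ' : ℂ →+* ℂ).comp (σ₀ j) := by
    intro τ τ'
    rw [← key, ← key]
    exact ⟨st1 _, st2 _⟩
  have hex : ∀ σ : K i →+* ℂ, ∃ τ : ℂ ≃+* ℂ, (τ : ℂ →+* ℂ).comp (σ₀ i) = σ :=
    fun σ => Helper84.exists_aut (σ₀ i) σ
  choose τ hτ using hex
  refine ⟨fun σ => (τ σ : ℂ →+* ℂ).comp (σ₀ j), fun σ => G₀.map (τ σ), ⟨?_, ?_⟩, ?_, ?_, ?_⟩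
  · intro σ σ' h1
    have h2 := (e12 (τ σ) (τ σ')).2 h1
    rw [hτ, hτ] at h2
    exact h2
  · intro ρ
    obtain ⟨τ', hτ'⟩ := Helper84.exists_aut (σ₀ j) ρ
    refine ⟨(τ' : ℂ →+* ℂ).comp (σ₀ i), ?_⟩
    have h2 := (e12 (τ ((τ' : ℂ →+* ℂ).comp (σ₀ i))) τ').1 (hτ _)
    exact h2.trans hτ'
  · intro σ
    refine ⟨G₁.map (τ σ), ?_⟩
    have h1 : (G₀ * G₁).map (τ σ : ℂ →+* ℂ) = (1 : Matrix _ _ ℂ).map (τ σ : ℂ →+* ℂ) := by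
      rw [hG1]
    rw [Matrix.map_mul, Matrix.map_one _ (map_zero _) (map_one _)] at h1
    exact h1
  · intro σ
    have h1 : (G₀ᵀ * (h j).map (σ₀ j) * G₀).map (τ σ : ℂ →+* ℂ) =
        ((h i).map (σ₀ i)).map (τ σ : ℂ →+* ℂ) := by rw [hGh]
    rw [Matrix.map_mul, Matrix.map_mul, Matrix.map_map, Matrix.map_map] at h1
    have h2 : (h i).map ((τ σ : ℂ →+* ℂ) ∘ (σ₀ i)) = (h i).map σ := by
      have h3 : ((τ σ : ℂ →+* ℂ) ∘ (σ₀ i) : K i → ℂ) = σ := by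
        conv_rhs => rw [← hτ σ]
        rfl
      rw [h3]
    rw [h2] at h1
    exact h1
  · intro M hM σ
    have h1 := hGM _ (RRE_twist hϖ S hB hM (τ σ).symm)
    rw [IsoA.twP_symm, IsoA.twP_symm] at h1
    have h2 : ((M ⟨j, (τ σ : ℂ →+* ℂ).comp (σ₀ j)⟩).map (τ σ).symm * G₀).map (τ σ : ℂ →+* ℂ) =
        (G₀ * (M ⟨i, (τ σ : ℂ →+* ℂ).comp (σ₀ i)⟩).map (τ σ).symm).map (τ σ : ℂ →+* ℂ) := by
      rw [h1]
    have h3 : ∀ {a b : ℕ} (A : Matrix (Fin a) (Fin b) ℂ),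
        (A.map (τ σ).symm).map (τ σ : ℂ →+* ℂ) = A := by
      intro a b A
      ext x y
      exact (τ σ).apply_symm_apply _
    rw [Matrix.map_mul, Matrix.map_mul, h3, h3] at h2
    have h4 : M ⟨i, (τ σ : ℂ →+* ℂ).comp (σ₀ i)⟩ = M ⟨i, σ⟩ := by rw [hτ σ]
    rw [h4] at h2
    exact h2

end Pool.Agent.KSR
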