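import Pool.Agent.KSR.CoreW
import Pool.Agent.KSR.IsoA
import Pool.Agent.KSR.AvgA
import Pool.Agent.KSR.HomA
import Pool.Agent.KSR.GamA

/-!
Products of Kuga-Satake varieties with real multiplication: independence of the places, and the final
step.
-/

namespace Pool.Agent.KSR

open Module Matrix NumberField Pool.Agent.Helper7 Pool.Agent.KS Pool.Agent.Ball
  Pool.Agent.Helper28.GPC Pool.Agent.KSE

section skw

variable {K : Type} [Field K] [NumberField K] {m : ℕ} {h : Matrix (Fin m) (Fin m) K} {σ : K →+* ℂ}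

/-- the real form at a place is nondegenerate -/
lemma bil_nd (hσ : cj σ = σ) (hnd : h.det ≠ 0) : (bil (CoreR.GR h σ)).Nondegenerate := by
  constructor
  · intro x hx
    apply pr_nd hnd σ
    intro y
    rw [← CoreR.bil_pr hσ]
    exact hx y
  · intro y hy
    apply pr_nd' hnd σ
    intro x
    rw [← CoreR.bil_pr hσ]
    exact hy x

lemma exists_skP (hm : 2 ≤ m) (hσ : cj σ = σ) (hnd : h.det ≠ 0) (hs : (CoreR.GR h σ)ᵀ = CoreR.GR h σ) :
    ∃ Z, SkP h σ Z ∧ Z ≠ 0 := by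
  obtain ⟨A, hA, hA0⟩ := KSP.exists_skw hm (bil (CoreR.GR h σ)) (bil_symm hs) (bil_nd hσ hnd)
  refine ⟨LinearMap.toMatrix' A, skP_of_skw hσ hA, fun h0 => hA0 ?_⟩
  exact (LinearEquiv.map_eq_zero_iff _).1 h0

end skw

section fam

variable {I : Type} [Fintype I] [DecidableEq I] (n : I → ℕ) {κ : I → Type}
    [∀ i, Fintype (κ i)] [∀ i, DecidableEq (κ i)] {ϖ : ℂ} (hϖ : ϖ ≠ 0) (P : ∀ i, PData (κ i) ϖ)
    {K : I → Type} [∀ i, Field (K i)] [∀ i, NumberField (K i)] {c : ∀ i, K i →+* K i} {m : I → ℕ}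
    {h : ∀ i, Matrix (Fin (m i)) (Fin (m i)) (K i)}
    {t : ∀ i, Fin (m i) → K i → Module.End ℂ (κ i → ℂ)}
    (S : ∀ i, MD (P i) (c i) (h i) (t i)) {k : ℕ}
    (γ : MultilinearMap ℂ (fun _ : Fin (2 * k) => HW κ n) ℂ)
    (hB : ∀ v : Fin (2 * k) → HW κ n, (∀ r, IsRatP n P (v r)) → ∃ q : ℚ, γ v = ϖ ^ k * q)
    (hA : ∀ v : Fin (2 * k) → HW κ n, (∀ r i m j, IsAlgebraic ℚ (v r i m j)) →
      IsAlgebraic ℚ (γ v))
    (hP : ∀ i, HNd (P i))
    (hreal : ∀ i (σ : K i →+* ℂ), cj σ = σ)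
    (σ₀ : ∀ i, K i →+* ℂ)
    (hsig : ∀ i, Sig2 (CoreR.GR (h i) (σ₀ i)) ∨ Sig2 (-(CoreR.GR (h i) (σ₀ i))))
    (hdef : ∀ i (σ : K i →+* ℂ), σ ≠ σ₀ i → Definite ((h i).map (cj σ)))
    (hT : ∀ X : GG κ, IsInv n P γ X → ∀ i, ∃ M, ActM (t i) (X.1 i) M)
    (hTg : ∀ g : (i : I) → Module.End ℂ (κ i → ℂ), IsGrp n P γ g → ∀ i,
      ∃ A : (K i →+* ℂ) → Matrix (Fin (m i)) (Fin (m i)) ℂ, ∀ σ x,
        g i * tau (ts (t i) σ) x = tau (ts (t i) σ) (A σ *ᵥ x) * g i)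
    (hHom : ∀ i j, i ≠ j → ∀ f : (κ i → ℂ) →ₗ[ℂ] (κ j → ℂ), IsDRB (P i) (P j) f → f = 0)

omit [DecidableEq I] [∀ i, Fintype (κ i)] in
lemma actM_empty (i : I) (hκ : IsEmpty (κ i)) (X : Module.End ℂ (κ i → ℂ))
    (M : (K i →+* ℂ) → Matrix (Fin (m i)) (Fin (m i)) ℂ) : ActM (t i) X M := by
  intro σ x
  apply LinearMap.ext
  intro v
  funext j
  exact hκ.elim j

variable {n P γ}

/-- the values at an empty factor are arbitrary -/
lemma update_mem {M : ∀ p : PL K, Matrix (Fin (m p.1)) (Fin (m p.1)) ℂ}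
    (hM : M ∈ RRE n P h t γ) [DecidableEq (PL K)] (q : PL K) (hq : IsEmpty (κ q.1))
    (Z : Matrix (Fin (m q.1)) (Fin (m q.1)) ℂ) (hZ : SkP (h q.1) q.2 Z) :
    Function.update M q Z ∈ RRE n P h t γ := by
  obtain ⟨hM1, X, hX, hX2, hXM⟩ := hM
  refine ⟨fun p => ?_, X, hX, hX2, fun l => ?_⟩
  · by_cases hp : p = q
    · subst hp
      rw [Function.update_self]
      exact hZ
    · rw [Function.update_of_ne hp]
      exact hM1 p
  · by_cases hl : l = q.1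
    · subst hl
      exact actM_empty q.1 hq _ _
    · have e : (fun σ : K l →+* ℂ => Function.update M q Z ⟨l, σ⟩) = fun σ => M ⟨l, σ⟩ := by
        funext σ
        rw [Function.update_of_ne]
        intro h0
        exact hl (congrArg Sigma.fst h0)
      rw [e]
      exact hXM l

variable (n P γ)

include hϖ S hB hA hP hreal hsig hdef hT hTg in
/-- all skew matrices at a place, with the value zero at all other places which do not correspond to it -/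
lemma core_at (p : PL K) (hm3 : 3 ≤ m p.1) (hm5 : m p.1 ≠ 5) (τ : ℂ ≃+* ℂ)
    (hτ : (τ : ℂ →+* ℂ).comp (σ₀ p.1) = p.2) (Z : Matrix (Fin (m p.1)) (Fin (m p.1)) ℂ)
    (hZ : SkP (h p.1) p.2 Z) :
    ∃ M ∈ RRE n P h t γ, M p = Z ∧
      ∀ q : PL K, q ≠ p → q.2 ≠ (τ : ℂ →+* ℂ).comp (σ₀ q.1) → M q = 0 := by
  classical
  rcases isEmpty_or_nonempty (κ p.1) with hκ | hκ
  · refine ⟨Function.update 0 p Z, update_mem (Submodule.zero_mem _) p hκ Z hZ, ?_,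
      fun q hq _ => ?_⟩
    · rw [Function.update_self]
    · rw [Function.update_of_ne hq]
      rfl
  obtain ⟨i, σ⟩ := p
  simp only at hτ hZ Z hκ hm3 hm5
  have hτ' : (τ.symm : ℂ →+* ℂ).comp σ = σ₀ i := by
    rw [← hτ]
    ext x
    exact τ.symm_apply_apply (σ₀ i x)
  have e2 : SkP (h i) (σ₀ i) (Z.map τ.symm) := by
    have h1 := skP_tw (g := h i) τ.symm (σ₀ i) (Z := Z) (by
      have e : ((τ.symm).symm : ℂ →+* ℂ).comp (σ₀ i) = σ := hτ
      rw [e]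
      exact hZ)
    exact h1
  obtain ⟨M, hM, hM1, hM2⟩ := RRE_core0 n hϖ P S γ hB hA hP hreal σ₀ hsig hdef hT hTg i hκ hm3 hm5
    _ e2
  refine ⟨twP τ M, RRE_twist hϖ S hB hM τ, ?_, fun q _ hq => ?_⟩
  · show (M ⟨i, (τ.symm : ℂ →+* ℂ).comp σ⟩).map τ = Z
    rw [hτ', hM1]
    ext a b
    rw [Matrix.map_apply, Matrix.map_apply]
    exact τ.apply_symm_apply (Z a b)
  · show (M ⟨q.1, (τ.symm : ℂ →+* ℂ).comp q.2⟩).map τ = 0
    rw [hM2]
    · exact Matrix.map_zero τ (map_zero τ)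
    · intro h1
      apply hq
      have h2 : (τ.symm : ℂ →+* ℂ).comp q.2 = σ₀ q.1 := h1
      rw [← h2]
      ext x
      exact (τ.apply_symm_apply (q.2 x)).symm

include S hreal in
lemma exists_skP' (p : PL K) (hm3 : 3 ≤ m p.1) :
    ∃ Z, SkP (h p.1) p.2 Z ∧ Z ≠ 0 :=
  exists_skP (by omega) (hreal p.1 p.2) (S p.1).nd
    (CoreR.GR_tr (S p.1).conj (S p.1).herm (hreal p.1 p.2))

include hϖ S hB hA hP hreal hsig hdef hT hTg hHom in
/-- two different places are not linked -/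
lemma not_linkedE (hm : ∀ i, m i = 3 ∨ 6 ≤ m i) (p q : PL K) (hpq : p ≠ q) :
    ∃ M ∈ RRE n P h t γ, M q = 0 ∧ M p ≠ 0 := by
  classical
  have hm3 : ∀ i, 3 ≤ m i := fun i => by have := hm i; omega
  have hm5 : ∀ i, m i ≠ 5 := fun i => by have := hm i; omega
  obtain ⟨τ, hτ⟩ := Pool.Agent.Helper84.exists_aut (σ₀ p.1) p.2
  obtain ⟨Z, hZ, hZ0⟩ := exists_skP' P S hreal p (hm3 _)
  obtain ⟨M, hM, hMp, hM0⟩ := core_at n hϖ P S γ hB hA hP hreal σ₀ hsig hdef hT hTg p (hm3 _)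
    (hm5 _) τ hτ Z hZ
  by_cases hq : q.2 = (τ : ℂ →+* ℂ).comp (σ₀ q.1)
  swap
  · exact ⟨M, hM, hM0 q (Ne.symm hpq) hq, by rw [hMp]; exact hZ0⟩
  have hne : p.1 ≠ q.1 := by
    intro h1
    apply hpq
    obtain ⟨i, σ⟩ := p
    obtain ⟨j, ρ⟩ := q
    simp only at h1 hτ hq
    subst h1
    rw [hq, hτ]
  rcases isEmpty_or_nonempty (κ p.1) with hκ | hκ
  · refine ⟨Function.update 0 p Z, update_mem (Submodule.zero_mem _) p hκ Z hZ, ?_, ?_⟩
    · rw [Function.update_of_ne (Ne.symm hpq)]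
      rfl
    · rw [Function.update_self]
      exact hZ0
  rcases isEmpty_or_nonempty (κ q.1) with hκ' | hκ'
  · refine ⟨Function.update M q 0, update_mem hM q hκ' 0 SkP.zero, ?_, ?_⟩
    · rw [Function.update_self]
    · rw [Function.update_of_ne hpq, hMp]
      exact hZ0
  by_contra hcon
  push Not at hcon
  -- the link at the hyperbolic places
  have hlink : ∀ M ∈ RRE n P h t γ, M ⟨q.1, σ₀ q.1⟩ = 0 → M ⟨p.1, σ₀ p.1⟩ = 0 := by
    intro M' hM' h0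
    have h1 := RRE_twist hϖ S hB hM' τ
    have e1 : (τ.symm : ℂ →+* ℂ).comp q.2 = σ₀ q.1 := by
      rw [hq]
      ext x
      exact τ.symm_apply_apply (σ₀ q.1 x)
    have e2 : (τ.symm : ℂ →+* ℂ).comp p.2 = σ₀ p.1 := by
      rw [← hτ]
      ext x
      exact τ.symm_apply_apply (σ₀ p.1 x)
    have h2 : twP τ M' q = 0 := by
      show (M' ⟨q.1, (τ.symm : ℂ →+* ℂ).comp q.2⟩).map τ = 0
      rw [e1, h0]
      exact Matrix.map_zero τ (map_zero τ)
    have h3 : (M' ⟨p.1, (τ.symm : ℂ →+* ℂ).comp p.2⟩).map τ = 0 := hcon _ h1 h2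
    rw [e2] at h3
    ext a b
    have h4 := congrFun (congrFun h3 a) b
    rw [Matrix.map_apply, Matrix.zero_apply] at h4
    exact (map_eq_zero τ).mp h4
  have hcore : ∀ l, l = p.1 ∨ l = q.1 → ∀ Z, SkP (h l) (σ₀ l) Z →
      ∃ M ∈ RRE n P h t γ, M ⟨l, σ₀ l⟩ = Z ∧ ∀ p : PL K, p.2 ≠ σ₀ p.1 → M p = 0 := by
    intro l hl Z hZ
    refine RRE_core0 n hϖ P S γ hB hA hP hreal σ₀ hsig hdef hT hTg l ?_ (hm3 l) (hm5 l) Z hZ
    rcases hl with rfl | rfl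
    · exact hκ
    · exact hκ'
  have hl : ∀ M ∈ RRE n P h t γ, M ⟨p.1, σ₀ p.1⟩ = 0 ↔ M ⟨q.1, σ₀ q.1⟩ = 0 := by
    intro M' hM'
    refine ⟨fun h0 => ?_, fun h0 => hlink M' hM' h0⟩
    by_contra hj0
    let 𝔞 : Submodule ℂ (Module.End ℂ (Fin (m q.1) → ℂ)) :=
      { carrier := {B | ∃ N ∈ RRE n P h t γ, N ⟨p.1, σ₀ p.1⟩ = 0 ∧
          Matrix.toLin' (N ⟨q.1, σ₀ q.1⟩) = B}
        add_mem' := by
          rintro B B' ⟨N, hN, hN0, hNB⟩ ⟨N', hN', hN'0, hNB'⟩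
          refine ⟨N + N', Submodule.add_mem _ hN hN', ?_, ?_⟩
          · rw [Pi.add_apply, hN0, hN'0, add_zero]
          · rw [Pi.add_apply, map_add, hNB, hNB']
        zero_mem' := ⟨0, Submodule.zero_mem _, rfl, by rw [Pi.zero_apply, map_zero]⟩
        smul_mem' := by
          rintro c B ⟨N, hN, hN0, hNB⟩
          refine ⟨c • N, Submodule.smul_mem _ _ hN, ?_, ?_⟩
          · rw [Pi.smul_apply, hN0, smul_zero]
          · rw [Pi.smul_apply, map_smul, hNB] }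
    have hσj := hreal q.1 (σ₀ q.1)
    have hsj := CoreR.GR_tr (S q.1).conj (S q.1).herm hσj
    have htop := KSP.ideal_top (by have := hm q.1; omega) (bil (CoreR.GR (h q.1) (σ₀ q.1)))
      (bil_symm hsj) (bil_nd hσj (S q.1).nd) 𝔞 (by
        rintro B ⟨N, hN, -, rfl⟩
        exact skw_of_skP hσj (hN.1 ⟨q.1, σ₀ q.1⟩)) (by
        rintro B ⟨N, hN, hN0, rfl⟩ C hC
        obtain ⟨N', hN', hN'C, -⟩ := hcore q.1 (Or.inr rfl) _ (skP_of_skw hσj hC)
        refine ⟨N' * N - N * N', RRE_bracket hN' hN, ?_, ?_⟩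
        · rw [Pi.sub_apply, Pi.mul_apply, Pi.mul_apply, hN0, mul_zero, zero_mul, sub_zero]
        · have e : C = Matrix.toLin' (N' ⟨q.1, σ₀ q.1⟩) := by
            rw [hN'C, Matrix.toLin'_toMatrix']
          rw [Pi.sub_apply, Pi.mul_apply, Pi.mul_apply, map_sub, Matrix.toLin'_mul,
            Matrix.toLin'_mul, e]
          rfl) (Matrix.toLin' (M' ⟨q.1, σ₀ q.1⟩)) ⟨M', hM', h0, rfl⟩ (fun h1 =>
        hj0 ((LinearEquiv.map_eq_zero_iff _).1 h1))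
    obtain ⟨Z', hZ', hZ'0⟩ := exists_skP' P S hreal ⟨p.1, σ₀ p.1⟩ (hm3 p.1)
    obtain ⟨M₁, hM₁, hM₁Z, -⟩ := hcore p.1 (Or.inl rfl) Z' hZ'
    obtain ⟨N, hN, hN0, hNj⟩ := htop (Matrix.toLin' (M₁ ⟨q.1, σ₀ q.1⟩))
      (skw_of_skP hσj (hM₁.1 ⟨q.1, σ₀ q.1⟩))
    have h1 := hlink (M₁ - N) (Submodule.sub_mem _ hM₁ hN) (by
      rw [Pi.sub_apply, Matrix.toLin'.injective hNj, sub_self])
    rw [Pi.sub_apply, hN0, sub_zero, hM₁Z] at h1
    exact hZ'0 h1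
  obtain ⟨φ, g, hφ, hg', hg, hMg⟩ := exists_iso n hϖ P S γ hB hreal σ₀ hsig p.1 q.1 (hm p.1)
    (hm q.1) hcore hl
  obtain ⟨F, hF0, hF⟩ := exists_F (S p.1).conj (S p.1).herm (S p.1).nd (S p.1).cliff (S q.1).conj
    (S q.1).cliff (hreal p.1) (hreal q.1) φ hφ.1 g hg
  obtain ⟨f, hf, hf0⟩ := hom_of_F n hϖ P S γ hB hA hreal hT p.1 q.1 hκ hκ' φ hφ g hg' hg hMg F hF0
    hF
  exact hf0 (hHom p.1 q.1 hne f hf)

include hϖ S hB hA hP hreal hsig hdef hT hTg hHom in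
/-- the symmetries contain the concentrated ones -/
lemma RRE_single [DecidableEq (PL K)] (hm3 : ∀ i, 3 ≤ m i) (hm5 : ∀ i, m i ≠ 5)
    (hm4 : (∀ i, m i ≠ 4) ∨ Subsingleton I) (p : PL K)
    (Z : Matrix (Fin (m p.1)) (Fin (m p.1)) ℂ) (hZ : SkP (h p.1) p.2 Z) :
    (Pi.single p Z : ∀ p : PL K, Matrix (Fin (m p.1)) (Fin (m p.1)) ℂ) ∈ RRE n P h t γ := by
  rcases hm4 with hm4 | hI
  · have hm : ∀ i, m i = 3 ∨ 6 ≤ m i := fun i => by
      have h1 := hm3 i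
      have h2 := hm4 i
      have h3 := hm5 i
      omega
    let L : (∀ p : PL K, Matrix (Fin (m p.1)) (Fin (m p.1)) ℂ) ≃ₗ[ℂ]
        (∀ p : PL K, Module.End ℂ (Fin (m p.1) → ℂ)) :=
      LinearEquiv.piCongrRight fun p => Matrix.toLin'
    have hL : ∀ M p, L M p = Matrix.toLin' (M p) := fun _ _ => rfl
    obtain ⟨R, hR⟩ : ∃ R : Submodule ℂ (∀ p : PL K, Module.End ℂ (Fin (m p.1) → ℂ)),
      R = (RRE n P h t γ).map (L : (∀ p : PL K, Matrix (Fin (m p.1)) (Fin (m p.1)) ℂ) →ₗ[ℂ]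
        (∀ p : PL K, Module.End ℂ (Fin (m p.1) → ℂ))) := ⟨_, rfl⟩
    have hmem : ∀ X, X ∈ R ↔ ∃ M ∈ RRE n P h t γ, L M = X := by
      intro X
      rw [hR]
      exact Submodule.mem_map
    have h1 := KSP.goursat (I := PL K) (fun p => m p.1) (fun p => by have := hm p.1; omega)
      (fun p => bil (CoreR.GR (h p.1) p.2))
      (fun p => bil_symm (CoreR.GR_tr (S p.1).conj (S p.1).herm (hreal p.1 p.2)))
      (fun p => bil_nd (hreal p.1 p.2) (S p.1).nd) R (by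
        intro X hX Y hY
        rw [hmem] at hX hY ⊢
        obtain ⟨M, hM, rfl⟩ := hX
        obtain ⟨M', hM', rfl⟩ := hY
        refine ⟨_, RRE_bracket hM hM', ?_⟩
        funext p
        rw [hL, Pi.sub_apply, Pi.mul_apply, Pi.mul_apply, map_sub, Matrix.toLin'_mul,
          Matrix.toLin'_mul]
        rfl) (by
        intro X hX p
        rw [hmem] at hX
        obtain ⟨M, hM, rfl⟩ := hX
        exact skw_of_skP (hreal p.1 p.2) (hM.1 p)) (by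
        intro p A hA'
        obtain ⟨τ, hτ⟩ := Pool.Agent.Helper84.exists_aut (σ₀ p.1) p.2
        obtain ⟨M, hM, hMp, -⟩ := core_at n hϖ P S γ hB hA hP hreal σ₀ hsig hdef hT hTg p (hm3 _)
          (hm5 _) τ hτ _ (skP_of_skw (hreal p.1 p.2) hA')
        refine ⟨L M, (hmem _).mpr ⟨M, hM, rfl⟩, ?_⟩
        rw [hL, hMp, Matrix.toLin'_toMatrix']) (by
        intro p q hpq
        obtain ⟨M, hM, hMq, hMp⟩ := not_linkedE n hϖ P S γ hB hA hP hreal σ₀ hsig hdef hT hTg hHom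
          hm p q hpq
        refine ⟨L M, (hmem _).mpr ⟨M, hM, rfl⟩, ?_, fun h0 => hMp ?_⟩
        · rw [hL, hMq, map_zero]
        · rw [hL] at h0
          exact (LinearEquiv.map_eq_zero_iff _).1 h0) p (Matrix.toLin' Z)
      (skw_of_skP (hreal p.1 p.2) hZ)
    rw [hmem] at h1
    obtain ⟨M, hM, hM1⟩ := h1
    have h2 : M = Pi.single p Z := by
      funext q
      have h3 := congrFun hM1 q
      rw [hL] at h3
      by_cases hq : q = p
      · subst hq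
        rw [Pi.single_eq_same] at h3 ⊢
        exact Matrix.toLin'.injective h3
      · rw [Pi.single_eq_of_ne hq] at h3 ⊢
        exact (LinearEquiv.map_eq_zero_iff _).1 h3
    rw [← h2]
    exact hM
  · obtain ⟨τ, hτ⟩ := Pool.Agent.Helper84.exists_aut (σ₀ p.1) p.2
    obtain ⟨M, hM, hMp, hM0⟩ := core_at n hϖ P S γ hB hA hP hreal σ₀ hsig hdef hT hTg p (hm3 _)
      (hm5 _) τ hτ Z hZ
    have h2 : M = Pi.single p Z := by
      funext q
      by_cases hq : q = p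
      · subst hq
        rw [Pi.single_eq_same, hMp]
      · rw [Pi.single_eq_of_ne hq]
        apply hM0 q hq
        intro h3
        apply hq
        obtain ⟨i, σ⟩ := p
        obtain ⟨j, ρ⟩ := q
        simp only at h3 hτ
        have hij : i = j := Subsingleton.elim _ _
        subst hij
        rw [h3, hτ]
    rw [← h2]
    exact hM

end fam

section main

variable {I : Type} [Fintype I] [DecidableEq I] (n : I → ℕ) {κ : I → Type}
    [∀ i, Fintype (κ i)] [∀ i, DecidableEq (κ i)] {ϖ : ℂ} (hϖ : ϖ ≠ 0) (P : ∀ i, PData (κ i) ϖ)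
    {K : I → Type} [∀ i, Field (K i)] [∀ i, NumberField (K i)] {c : ∀ i, K i →+* K i} {m : I → ℕ}
    {h : ∀ i, Matrix (Fin (m i)) (Fin (m i)) (K i)}
    {t : ∀ i, Fin (m i) → K i → Module.End ℂ (κ i → ℂ)}
    (S : ∀ i, MD (P i) (c i) (h i) (t i)) {k : ℕ}
    (α : MultilinearMap ℂ (fun _ : Fin (2 * k) => HW κ n) ℂ)
    (hB : ∀ v : Fin (2 * k) → HW κ n, (∀ r, IsRatP n P (v r)) → ∃ q : ℚ, α v = ϖ ^ k * q)
    (hA : ∀ v : Fin (2 * k) → HW κ n, (∀ r i m j, IsAlgebraic ℚ (v r i m j)) →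
      IsAlgebraic ℚ (α v))
    (hP : ∀ i, HNd (P i))
    (hreal : ∀ i (σ : K i →+* ℂ), cj σ = σ)
    (σ₀ : ∀ i, K i →+* ℂ)
    (hsig : ∀ i, Sig2 (CoreR.GR (h i) (σ₀ i)) ∨ Sig2 (-(CoreR.GR (h i) (σ₀ i))))
    (hdef : ∀ i (σ : K i →+* ℂ), σ ≠ σ₀ i → Definite ((h i).map (cj σ)))
    (hHom : ∀ i j, i ≠ j → ∀ f : (κ i → ℂ) →ₗ[ℂ] (κ j → ℂ), IsDRB (P i) (P j) f → f = 0)
    (hm3 : ∀ i, 3 ≤ m i) (hm5 : ∀ i, m i ≠ 5) (hm4 : (∀ i, m i ≠ 4) ∨ Subsingleton I)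

include hϖ S hB hA hP hreal hsig hdef hHom hm3 hm5 hm4 in
/-- the Lie algebras of the factors kill the class -/
theorem kill_formA (i : I) (Z : Module.End ℂ (κ i → ℂ)) (hZ : Z ∈ bvS (t i)) :
    actForm (lift n (Pi.single i Z)) α = 0 := by
  classical
  rcases Nat.eq_zero_or_pos k with rfl | hk
  · apply MultilinearMap.ext
    intro v
    rw [actForm_apply]
    exact Finset.sum_eq_zero fun r _ => Fin.elim0 r
  obtain ⟨n', k', γ, hγB, hγA, hγ1, hγ2⟩ := exists_gam_allE P S n hk α hB hA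
  obtain ⟨M, hM1, hM2⟩ := exists_act_of_mem (S i).conj (S i).herm (S i).nd (S i).cliff Z hZ
  obtain ⟨N, hN⟩ : ∃ N : ∀ p : PL K, Matrix (Fin (m p.1)) (Fin (m p.1)) ℂ,
      N = ∑ σ : K i →+* ℂ, Pi.single (⟨i, σ⟩ : PL K) (M σ) := ⟨_, rfl⟩
  have hNm : N ∈ RRE n' P h t γ := by
    rw [hN]
    refine Submodule.sum_mem _ fun σ _ => ?_
    refine RRE_single n' hϖ P S γ hγB hγA hP hreal σ₀ hsig hdef (fun X hX => (hγ1 X hX).2)
      (fun g hg => (hγ2 g hg).2) hHom hm3 hm5 hm4 ⟨i, σ⟩ (M σ) ?_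
    have h1 := hM2 σ
    rw [hreal i σ] at h1
    exact h1
  have hNi : ∀ σ : K i →+* ℂ, N ⟨i, σ⟩ = M σ := by
    intro σ
    rw [hN, Finset.sum_apply, Finset.sum_eq_single σ]
    · rw [Pi.single_eq_same]
    · intro ρ _ hρ
      rw [Pi.single_eq_of_ne]
      intro h0
      apply hρ
      have h1 : σ = ρ := by
        simpa using h0
      exact h1.symm
    · intro h0; exact absurd (Finset.mem_univ _) h0
  have hNj : ∀ l, l ≠ i → ∀ σ : K l →+* ℂ, N ⟨l, σ⟩ = 0 := by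
    intro l hl σ
    rw [hN, Finset.sum_apply]
    refine Finset.sum_eq_zero fun ρ _ => ?_
    rw [Pi.single_eq_of_ne]
    intro h0
    exact hl (congrArg Sigma.fst h0)
  obtain ⟨-, X, hX, hX2, hXN⟩ := hNm
  have h1 : X.1 = Pi.single i Z := by
    funext l
    have h2 := mem_bvE n' P l (S l) γ X hX hX2 _ (hXN l)
    by_cases hl : l = i
    · subst hl
      rw [Pi.single_eq_same]
      refine eq_of_act (S l).conj (S l).herm (S l).nd (S l).cliff h2 hZ (hXN l) ?_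
      have e : (fun σ => N ⟨l, σ⟩) = M := funext hNi
      rw [e]
      exact hM1
    · rw [Pi.single_eq_of_ne hl]
      refine eq_of_act (S l).conj (S l).herm (S l).nd (S l).cliff h2 (Submodule.zero_mem _)
        (hXN l) ?_
      have e : (fun σ => N ⟨l, σ⟩) = 0 := funext (hNj l hl)
      rw [e]
      exact ActM.zero
  have h3 := ((hγ1 X hX).1).form
  rw [hX2, mul_zero, zero_smul, h1] at h3
  exact h3

end main

end Pool.Agent.KSR
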