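import Pool.Agent.KSR.RepG
import Pool.Agent.KSP.LinkHyp

/-!
Module HypA. A hyperbolic family, zero at all definite places of all factors.

Proof. Let `G = CoreR.GR (h i) (σ₀ i)` (symmetric: `CoreR.GR_tr`). `KSP.LinkHyp.exists_pair` gives a hyperbolic
pair `e, f`. By `hall` there is `M ∈ RRE` whose value at `(i, σ₀ i)` is the matrix `W` of `wed (bil G) (cx e) (cx f)`
(skew: `KSP.Goursat.skw_wed`, `skP_of_skw`). `W` is real, so `M' = (1/2) • (M + twP conj M)` (`RRE_twist` for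
`starRingAut`; `(starRingAut.symm).comp σ = cj σ = σ` by `hreal`) is in `RRE`, has the value `W` at `(i, σ₀ i)`, and
all its values are real matrices (equal to their complex conjugates). Let `N` be the replica of `M'` for the
additive map `ρ = z ↦ (re z : ℂ)` (`RRE_rep`). `W` has the eigenvectors `cx e` (eigenvalue 1), `cx f` (eigenvalue
`-1`) and it kills the vectors orthogonal to `e, f`; these span, so `N ⟨i, σ₀ i⟩ = W` (eigenvectors are in the
generalised eigenspaces; `re 1 = 1` etc.). At a place `p` with `p.2 ≠ σ₀ p.1` and `κ p.1` not empty the real matrix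
`M' p` is skew for the real symmetric matrix `(h p.1).map p.2`, which is definite (`hdef`), so all eigenvalues of
`M' p` are purely imaginary: if `M' p v = μ v`, `v ≠ 0`, then `hf H (M' p v) v + hf H v (M' p v) = 0`
gives `(conj μ + μ) * hf H v v = 0` and `hf H v v ≠ 0`. Hence `N p` kills all generalised eigenspaces (if `μ` is
an eigenvalue `ρ μ = 0`, otherwise the generalised eigenspace is zero; `KSE.HypE.exists_eig`) and `N p = 0`
(`Helper65.Ball.ext_maxGen`). Finally replace `N p` by `0` at the `p` with `κ p.1` empty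
(`ActM` is trivial there, all endomorphisms are equal).
-/

namespace Pool.Agent.KSR

open Module Matrix NumberField Pool.Agent.Helper7 Pool.Agent.KS Pool.Agent.Ball
  Pool.Agent.Helper28.GPC Pool.Agent.KSE

namespace HypA

/-- the additive map `z ↦ re z` -/
noncomputable def rho : ℂ →+ ℂ := Complex.ofRealHom.toAddMonoidHom.comp Complex.reAddGroupHom

lemma rho_apply (z : ℂ) : rho z = ((z.re : ℝ) : ℂ) := rfl

lemma star_mulVec_real {m : ℕ} {Z : Matrix (Fin m) (Fin m) ℂ}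
    (hZ : ∀ a b, star (Z a b) = Z a b) (y : Fin m → ℂ) : star (Z *ᵥ y) = Z *ᵥ star y := by
  funext a
  rw [Pi.star_apply, Matrix.mulVec, Matrix.mulVec, dotProduct, dotProduct, star_sum]
  refine Finset.sum_congr rfl fun b _ => ?_
  rw [star_mul', hZ, Pi.star_apply]

/-- real skew matrices of a definite form have purely imaginary eigenvalues -/
lemma re_zero {K : Type} [Field K] {m : ℕ} {h : Matrix (Fin m) (Fin m) K} {σ : K →+* ℂ}
    (hdef : Definite (h.map σ)) {Z : Matrix (Fin m) (Fin m) ℂ}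
    (hZ : ∀ a b, star (Z a b) = Z a b) (hsk : SkP h σ Z) {ν : ℂ} {y : Fin m → ℂ} (hy0 : y ≠ 0)
    (hy : Z *ᵥ y = ν • y) : ν.re = 0 := by
  have h1 : (hf (h.map σ) y y).re ≠ 0 := by
    rcases hdef.2 with h2 | h2
    · exact (h2 y hy0).ne'
    · exact (h2 y hy0).ne
  have h2 : hf (h.map σ) y y ≠ 0 := by
    intro h0
    rw [h0, Complex.zero_re] at h1
    exact h1 rfl
  have h3 := (skP_iff Z).mp hsk (star y) y
  rw [← star_mulVec_real hZ y, ← CoreR.hf_pr, ← CoreR.hf_pr, hy, hf_smul_left, hf_smul_right,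
    ← add_mul] at h3
  rcases mul_eq_zero.mp h3 with h4 | h4
  · have h5 := congrArg Complex.re h4
    rw [Complex.add_re, Complex.conj_re, Complex.zero_re] at h5
    linarith
  · exact absurd h4 h2

lemma wed_real {m : ℕ} (G : Matrix (Fin m) (Fin m) ℝ) (e f : Fin m → ℝ) (a b : Fin m) :
    star (LinearMap.toMatrix' (wed (bil G) (cx e) (cx f)) a b) =
      LinearMap.toMatrix' (wed (bil G) (cx e) (cx f)) a b := by
  have h1 : ∀ x : Fin m → ℝ, star (bil G (cx x) (Pi.single b 1)) =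
      bil G (cx x) (Pi.single b 1) := by
    intro x
    rw [← KS.bil_star, KS.star_cx]
    congr 1
    funext a
    rw [Pi.star_apply]
    by_cases hab : a = b
    · subst hab
      rw [Pi.single_eq_same, star_one]
    · rw [Pi.single_eq_of_ne hab, star_zero]
  have h2 : ∀ x : Fin m → ℝ, star (cx x a) = cx x a := fun x => congrFun (KS.star_cx x) a
  rw [LinearMap.toMatrix'_apply]
  have h3 : (Pi.single b (1 : ℂ) : Fin m → ℂ) = fun j => if j = b then 1 else 0 := by
    funext j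
    rw [Pi.single_apply]
  rw [wed_apply, Pi.sub_apply, Pi.smul_apply, Pi.smul_apply, smul_eq_mul, smul_eq_mul, star_sub,
    star_mul', star_mul', h2, h2]
  rw [h1, h1]

end HypA

variable {I : Type} [Fintype I] [DecidableEq I] (n : I → ℕ) {κ : I → Type}
    [∀ i, Fintype (κ i)] [∀ i, DecidableEq (κ i)] {ϖ : ℂ} (hϖ : ϖ ≠ 0) (P : ∀ i, PData (κ i) ϖ)
    {K : I → Type} [∀ i, Field (K i)] [∀ i, NumberField (K i)] {c : ∀ i, K i →+* K i} {m : I → ℕ}
    {h : ∀ i, Matrix (Fin (m i)) (Fin (m i)) (K i)}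
    {t : ∀ i, Fin (m i) → K i → Module.End ℂ (κ i → ℂ)}
    (S : ∀ i, MD (P i) (c i) (h i) (t i)) {k : ℕ}
    (γ : MultilinearMap ℂ (fun _ : Fin (2 * k) => HW κ n) ℂ)
    (hB : ∀ v : Fin (2 * k) → HW κ n, (∀ r, IsRatP n P (v r)) → ∃ q : ℚ, γ v = ϖ ^ k * q)
    (hreal : ∀ i (σ : K i →+* ℂ), cj σ = σ)
    (σ₀ : ∀ i, K i →+* ℂ)
    (hsig : ∀ i, Sig2 (CoreR.GR (h i) (σ₀ i)) ∨ Sig2 (-(CoreR.GR (h i) (σ₀ i))))
    (hdef : ∀ i (σ : K i →+* ℂ), σ ≠ σ₀ i → Definite ((h i).map (cj σ)))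
    (hT : ∀ X : GG κ, IsInv n P γ X → ∀ i, ∃ M, ActM (t i) (X.1 i) M)

open HypA in
include hϖ S hB hreal hsig hdef hT in
theorem exists_hypA (i : I) (hne : Nonempty (κ i)) (hm3 : 3 ≤ m i)
    (hall : ∀ Z, SkP (h i) (σ₀ i) Z → ∃ M ∈ RRE n P h t γ, M ⟨i, σ₀ i⟩ = Z) :
    ∃ e f : Fin (m i) → ℝ, e ⬝ᵥ (CoreR.GR (h i) (σ₀ i) *ᵥ e) = 0 ∧
      f ⬝ᵥ (CoreR.GR (h i) (σ₀ i) *ᵥ f) = 0 ∧ e ⬝ᵥ (CoreR.GR (h i) (σ₀ i) *ᵥ f) = 1 ∧
      ∃ B ∈ RRE n P h t γ, B ⟨i, σ₀ i⟩ =
        LinearMap.toMatrix' (wed (bil (CoreR.GR (h i) (σ₀ i))) (cx e) (cx f)) ∧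
        ∀ p : PL K, p.2 ≠ σ₀ p.1 → B p = 0 := by
  classical
  have hσi : cj (σ₀ i) = σ₀ i := hreal i (σ₀ i)
  have hG : (CoreR.GR (h i) (σ₀ i))ᵀ = CoreR.GR (h i) (σ₀ i) :=
    CoreR.GR_tr (S i).conj (S i).herm hσi
  obtain ⟨e, f, he, hf', hef⟩ := KSP.LinkHyp.exists_pair hG hm3 (hsig i)
  set G := CoreR.GR (h i) (σ₀ i) with hGd
  have hs : ∀ x y, bil G x y = bil G y x := fun x y => KS.bil_symm hG x y
  have qee : bil G (cx e) (cx e) = 0 := by rw [KS.bil_cx, he, Complex.ofReal_zero]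
  have qff : bil G (cx f) (cx f) = 0 := by rw [KS.bil_cx, hf', Complex.ofReal_zero]
  have qef : bil G (cx e) (cx f) = 1 := by rw [KS.bil_cx, hef, Complex.ofReal_one]
  have qfe : bil G (cx f) (cx e) = 1 := by rw [hs, qef]
  set W := LinearMap.toMatrix' (wed (bil G) (cx e) (cx f)) with hWd
  have hWv : ∀ x, W *ᵥ x = bil G (cx f) x • cx e - bil G (cx e) x • cx f := by
    intro x
    rw [hWd, ← Matrix.toLin'_apply, Matrix.toLin'_toMatrix', wed_apply]
  have hWsk : SkP (h i) (σ₀ i) W := skP_of_skw hσi (KSP.Goursat.skw_wed _ hs _ _)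
  obtain ⟨M, hM, hMW⟩ := hall _ hWsk
  have hτ : ∀ p : PL K, ((starRingAut (R := ℂ)).symm : ℂ →+* ℂ).comp p.2 = p.2 := by
    intro p
    have := hreal p.1 p.2
    ext x
    exact RingHom.congr_fun this x
  obtain ⟨M', hM'⟩ : ∃ M', M' = (1 / 2 : ℂ) • (M + twP starRingAut M) := ⟨_, rfl⟩
  have hM'mem : M' ∈ RRE n P h t γ := by
    rw [hM']
    exact Submodule.smul_mem _ _ (Submodule.add_mem _ hM (RRE_twist hϖ S hB hM starRingAut))
  have hM'a : ∀ p a b, M' p a b = (1 / 2 : ℂ) * (M p a b + star (M p a b)) := by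
    intro p a b
    rw [hM', Pi.smul_apply, Pi.add_apply, Matrix.smul_apply, Matrix.add_apply, smul_eq_mul,
      twP, hτ p]
    rfl
  have hhalf : star (1 / 2 : ℂ) = 1 / 2 := by
    apply Complex.ext <;> simp
  have hM'r : ∀ p a b, star (M' p a b) = M' p a b := by
    intro p a b
    rw [hM'a, star_mul', star_add, star_star, hhalf, add_comm]
  have hM'W : M' ⟨i, σ₀ i⟩ = W := by
    ext a b
    rw [hM'a, hMW, hWd, wed_real]
    ring
  obtain ⟨N, hN, hNr⟩ := RRE_rep n P γ S hreal hT hM'mem rho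
  have mem_of : ∀ (p : PL K) (ν : ℂ) (x : Fin (m p.1) → ℂ), M' p *ᵥ x = ν • x →
      x ∈ Module.End.maxGenEigenspace (Matrix.toLin' (M' p)) ν := by
    intro p ν x hx
    rw [Module.End.mem_maxGenEigenspace]
    refine ⟨1, ?_⟩
    rw [pow_one, LinearMap.sub_apply, LinearMap.smul_apply, Module.End.one_apply,
      Matrix.toLin'_apply, hx, sub_self]
  have hNi : N ⟨i, σ₀ i⟩ = W := by
    have h1 : N ⟨i, σ₀ i⟩ *ᵥ cx e = cx e := by
      have h2 := hNr ⟨i, σ₀ i⟩ hne 1 (cx e) (mem_of ⟨i, σ₀ i⟩ 1 _ (by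
        rw [hM'W, hWv, qfe, qee, one_smul, zero_smul, sub_zero]))
      rw [h2, rho_apply, Complex.one_re, Complex.ofReal_one, one_smul]
    have h2 : N ⟨i, σ₀ i⟩ *ᵥ cx f = - cx f := by
      have h3 := hNr ⟨i, σ₀ i⟩ hne (-1) (cx f) (mem_of ⟨i, σ₀ i⟩ (-1) _ (by
        rw [hM'W, hWv, qff, qef, zero_smul, one_smul, zero_sub, neg_one_smul]))
      rw [h3, rho_apply, Complex.neg_re, Complex.one_re, Complex.ofReal_neg,
        Complex.ofReal_one, neg_one_smul]
    have h3 : ∀ z, bil G (cx e) z = 0 → bil G (cx f) z = 0 → N ⟨i, σ₀ i⟩ *ᵥ z = 0 := by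
      intro z hz1 hz2
      have h4 := hNr ⟨i, σ₀ i⟩ hne 0 z (mem_of ⟨i, σ₀ i⟩ 0 _ (by
        rw [hM'W, hWv, hz1, hz2, zero_smul, zero_smul, sub_zero, zero_smul]))
      rw [h4, rho_apply, Complex.zero_re, Complex.ofReal_zero, zero_smul]
    apply Matrix.toLin'.injective
    apply LinearMap.ext
    intro x
    rw [Matrix.toLin'_apply, Matrix.toLin'_apply, hWv]
    have h5 := h3 (x - bil G (cx f) x • cx e - bil G (cx e) x • cx f) (by
      rw [map_sub, map_sub, map_smul, map_smul, qee, qef, smul_zero, smul_eq_mul, mul_one,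
        sub_zero, sub_self]) (by
      rw [map_sub, map_sub, map_smul, map_smul, qfe, qff, smul_zero, smul_eq_mul, mul_one,
        sub_self, sub_zero])
    rw [Matrix.mulVec_sub, Matrix.mulVec_sub, Matrix.mulVec_smul, Matrix.mulVec_smul, h1, h2,
      sub_eq_zero, sub_eq_iff_eq_add] at h5
    rw [h5, smul_neg, neg_add_eq_sub]
  refine ⟨e, f, he, hf', hef, fun p => if Nonempty (κ p.1) then N p else 0, ?_, ?_, ?_⟩
  · obtain ⟨hN1, X, hX, hX2, hXM⟩ := hN
    refine ⟨fun p => ?_, X, hX, hX2, fun j => ?_⟩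
    · by_cases hp : Nonempty (κ p.1)
      · show SkP (h p.1) p.2 (if Nonempty (κ p.1) then N p else 0)
        rw [if_pos hp]
        exact hN1 p
      · show SkP (h p.1) p.2 (if Nonempty (κ p.1) then N p else 0)
        rw [if_neg hp]
        exact SkP.zero
    · by_cases hp : Nonempty (κ j)
      · intro σ x
        show _ = tau (ts (t j) σ) ((if Nonempty (κ j) then N ⟨j, σ⟩ else 0) *ᵥ x)
        rw [if_pos hp]
        exact hXM j σ x
      · intro σ x
        apply LinearMap.ext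
        intro v
        funext a
        exact (hp ⟨a⟩).elim
  · show (if Nonempty (κ i) then N ⟨i, σ₀ i⟩ else 0) = W
    rw [if_pos hne, hNi]
  · intro p hp
    show (if Nonempty (κ p.1) then N p else 0) = 0
    by_cases hκ : Nonempty (κ p.1)
    · rw [if_pos hκ]
      apply Matrix.toLin'.injective
      refine Helper65.Ball.ext_maxGen (Matrix.toLin' (M' p)) _ _ fun ν x hx => ?_
      rw [Matrix.toLin'_apply, map_zero, LinearMap.zero_apply, hNr p hκ ν x hx]
      by_cases hx0 : x = 0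
      · rw [hx0, smul_zero]
      obtain ⟨y, hy0, hy⟩ := HypE.exists_eig hx hx0
      rw [Matrix.toLin'_apply] at hy
      have hd : Definite ((h p.1).map p.2) := by
        have h6 := hdef p.1 p.2 hp
        rwa [hreal] at h6
      have h7 := re_zero hd (hM'r p) (hM'mem.1 p) hy0 hy
      rw [rho_apply, h7, Complex.ofReal_zero, zero_smul]
    · rw [if_neg hκ]

end Pool.Agent.KSR
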