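import Pool.Agent.KSR.AVA

/-!
Grothendieck classes on products of powers of Kuga-Satake varieties are Hodge classes: the general
statement.
-/

namespace Pool.Agent.KSR

open Module Matrix NumberField Pool.Agent.Helper7 Pool.Agent.KS Pool.Agent.Ball
  Pool.Agent.Helper28.GPC Pool.Agent.KSE
open Pool.Agent.GPC (AbVar IsHodge IsGrothendieck Form IsBetti IsDeRham IsFil H1 OddSparse IsK3Type)

lemma m_pos {A : AbVar} {K : Type} [Field K] [NumberField K] {c : K →+* K} {m : ℕ}
    (S : A.KugaSatakeMul K c m) : 0 < m := by
  obtain ⟨σ₀, x, ⟨s, hs, -⟩, -⟩ := S.hodge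
  rcases Nat.eq_zero_or_pos m with rfl | h
  · exfalso
    simp at hs
  · exact h

section unique

variable {I : Type} [Unique I] (A : I → AbVar) (n : I → ℕ)

/-- the element with a given component -/
def uel (w : Fin (n default) → (A default).H1) : H1 A n :=
  uniqueElim (α := fun i : I => Fin (n i) → (A i).H1) w

lemma uel_default (w : Fin (n default) → (A default).H1) : uel A n w default = w :=
  uniqueElim_default (α := fun i : I => Fin (n i) → (A i).H1) w

/-- the cohomology of a power of one variety, for an arbitrary index set with one element -/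
noncomputable def uni :
    H1 (fun _ : Unit => A default) (fun _ => n default) →ₗ[ℂ] H1 A n where
  toFun w := uel A n (w ())
  map_add' w w' := by
    funext i
    obtain rfl := Unique.eq_default i
    show uel A n (w () + w' ()) default = uel A n (w ()) default + uel A n (w' ()) default
    rw [uel_default, uel_default, uel_default]
  map_smul' r w := by
    funext i
    obtain rfl := Unique.eq_default i
    show uel A n (r • w ()) default = r • uel A n (w ()) default
    rw [uel_default, uel_default]

lemma uni_default (w : H1 (fun _ : Unit => A default) (fun _ => n default)) :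
    uni A n w default = w () := uel_default A n _

theorem main_unique {K : I → Type} [∀ i, Field (K i)] [∀ i, NumberField (K i)]
    {c : ∀ i, K i →+* K i} {m : I → ℕ} (S : ∀ i, (A i).KugaSatakeMul (K i) (c i) (m i))
    (hc : c default ≠ RingHom.id (K default)) (hm : m default = 1 ∨ Even (m default))
    (ho : OddSparse (K default)) (k : ℕ) (α : Form A n (2 * k)) (hα : IsGrothendieck A n k α) :
    IsHodge A n k α := by
  obtain ⟨hα1, hα2⟩ := hα
  refine ⟨hα2, fun v J hJ hv => ?_⟩
  let α' : Form (fun _ : Unit => A default) (fun _ => n default) (2 * k) :=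
    α.compLinearMap (uni A n)
  have hα' : ∀ w, α' w = α (fun r => uni A n (w r)) := fun w => rfl
  have hmain := main_kse (A default) (S default) (Or.inr ⟨hc, hm.imp id fun h => ⟨m_pos (S default), h⟩,
    ho⟩) (fun _ => n default) k α' ⟨fun w hw => ?_, fun w hw => ?_⟩
  · have h1 : v = fun r => uni A n (fun _ => v r default) := by
      funext r i
      obtain rfl := Unique.eq_default i
      rw [uni_default]
    rw [h1, ← hα' fun r _ => v r default]
    exact hmain.2 _ J hJ fun r hr _ => hv r hr default
  · rw [hα']
    apply hα1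
    intro r i
    obtain rfl := Unique.eq_default i
    rw [uni_default]
    exact hw r ()
  · rw [hα']
    apply hα2
    intro r i
    obtain rfl := Unique.eq_default i
    rw [uni_default]
    exact hw r ()

end unique

theorem main_all {I : Type} [Fintype I] (A : I → AbVar) {K : I → Type}
    [∀ i, Field (K i)] [∀ i, NumberField (K i)] {c : ∀ i, K i →+* K i} {m : I → ℕ}
    (S : ∀ i, (A i).KugaSatakeMul (K i) (c i) (m i))
    (hK : ∀ i, (c i = RingHom.id (K i) ∧ 3 ≤ m i ∧ m i ≠ 5) ∨
      (c i ≠ RingHom.id (K i) ∧ (m i = 1 ∨ Even (m i)) ∧ OddSparse (K i)))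
    (hI : Subsingleton I ∨ ∀ i, c i = RingHom.id (K i) ∧ m i ≠ 4)
    (hHom : ∀ i j, i ≠ j → ∀ f, (A i).IsMor (A j) f → ∀ v, f v = 0) (n : I → ℕ) (k : ℕ)
    (α : Form A n (2 * k)) (hα : IsGrothendieck A n k α) : IsHodge A n k α := by
  by_cases hr : ∀ i, c i = RingHom.id (K i)
  · have hK' : ∀ i, 3 ≤ m i ∧ m i ≠ 5 := by
      intro i
      rcases hK i with h | h
      · exact h.2
      · exact absurd (hr i) h.1
    refine main_ksr A S hr (fun i => (hK' i).1) (fun i => (hK' i).2) ?_ hHom n k α hα
    rcases hI with hI | hI
    · exact Or.inr hI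
    · exact Or.inl fun i => (hI i).2
  · push Not at hr
    obtain ⟨i, hi⟩ := hr
    have hs : Subsingleton I := by
      rcases hI with hI | hI
      · exact hI
      · exact absurd (hI i).1 hi
    let _ : Unique I := ⟨⟨i⟩, fun j => Subsingleton.elim _ _⟩
    rcases hK i with h | h
    · exact absurd h.1 hi
    · exact main_unique A n S h.1 h.2.1 h.2.2 k α hα

end Pool.Agent.KSR
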