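import Pool.Agent.KSR.FamA

/-!
Module RepG. Replicas of symmetries.

`exists_rep`: this is the first part of the proof of `KSE.HH_rep` (`Pool/Agent/KSE/RepE.lean`): take
`Y j` from `Helper65.Ball.M1a (X.1 j) ρ`; the symmetry property is proved there (`comm`, `pol`, `form`,
with `RepE.replica_add`), word for word.

`rep_act`: let `T = tau (ts t σ) x` for `x` in the generalised eigenspace of `M σ` for `ν`. Then `T` maps
the generalised eigenspace of `X` for `μ` to the one for `μ + ν`: use the binomial argument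
`(X - μ - ν)^N (T_x v) = sum of T_{(M σ - ν)^a x} ((X - μ)^b v)` (see `tau_maxGen` in the Ball files used by
`KSE.exists_hypE` for the multiplicative version; the additive version: by induction on `a + b` where
`(M σ - ν)^a x = 0`, `(X - μ)^b v = 0`, since `(X - (μ + ν)) (T_x v) = T_x ((X - μ) v) + T_{(M σ - ν) x} v`).
So `Y (T v) - T (Y v) = ρ (μ + ν) T v - ρ μ T v = ρ ν T v` on all generalised eigenspaces
(`Helper65.Ball.ext_maxGen`), that is `T_{N σ x} = T_{ρ ν x}`; conclude by injectivity.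

`RRE_rep`: apply both to a family.
-/

namespace Pool.Agent.KSR

open Module Matrix NumberField Pool.Agent.Helper7 Pool.Agent.KS Pool.Agent.Ball
  Pool.Agent.Helper28.GPC Pool.Agent.KSE

namespace RepG

private lemma mem_of_sub {V : Type} [AddCommGroup V] [Module ℂ V] (X : Module.End ℂ V) (l : ℂ)
    (y : V) (h : (X - l • (1 : Module.End ℂ V)) y ∈ X.maxGenEigenspace l) :
    y ∈ X.maxGenEigenspace l := by
  obtain ⟨N, hN⟩ := (Module.End.mem_maxGenEigenspace _ _ _).mp h
  refine (Module.End.mem_maxGenEigenspace _ _ _).mpr ⟨N + 1, ?_⟩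
  rw [pow_succ, Module.End.mul_apply]
  exact hN

private lemma shift {V W : Type} [AddCommGroup V] [Module ℂ V] [AddCommGroup W] [Module ℂ W]
    (X : Module.End ℂ V) (A : Module.End ℂ W) (T : W →ₗ[ℂ] Module.End ℂ V)
    (hT : ∀ x, X * T x - T x * X = T (A x)) (μ ν : ℂ) (s : ℕ) :
    ∀ a b : ℕ, a + b ≤ s → ∀ (x : W) (v : V), ((A - ν • (1 : Module.End ℂ W)) ^ a) x = 0 →
      ((X - μ • (1 : Module.End ℂ V)) ^ b) v = 0 → T x v ∈ X.maxGenEigenspace (μ + ν) := by
  induction s with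
  | zero =>
    intro a b hab x v hx _
    have ha : a = 0 := by omega
    rw [ha, pow_zero, Module.End.one_apply] at hx
    rw [hx, map_zero, LinearMap.zero_apply]
    exact Submodule.zero_mem _
  | succ s ih =>
    intro a b hab x v hx hv
    rcases Nat.eq_zero_or_pos a with ha | ha
    · rw [ha, pow_zero, Module.End.one_apply] at hx
      rw [hx, map_zero, LinearMap.zero_apply]
      exact Submodule.zero_mem _
    rcases Nat.eq_zero_or_pos b with hb | hb
    · rw [hb, pow_zero, Module.End.one_apply] at hv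
      rw [hv, map_zero]
      exact Submodule.zero_mem _
    obtain ⟨a', rfl⟩ : ∃ a', a = a' + 1 := ⟨a - 1, by omega⟩
    obtain ⟨b', rfl⟩ : ∃ b', b = b' + 1 := ⟨b - 1, by omega⟩
    rw [pow_succ, Module.End.mul_apply] at hx hv
    apply mem_of_sub
    have e : (X - (μ + ν) • (1 : Module.End ℂ V)) (T x v) =
        T x ((X - μ • (1 : Module.End ℂ V)) v) + T ((A - ν • (1 : Module.End ℂ W)) x) v := by
      have h1 := LinearMap.congr_fun (hT x) v
      rw [LinearMap.sub_apply, Module.End.mul_apply, Module.End.mul_apply] at h1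
      rw [LinearMap.sub_apply, LinearMap.sub_apply, LinearMap.sub_apply, LinearMap.smul_apply,
        LinearMap.smul_apply, LinearMap.smul_apply, Module.End.one_apply, Module.End.one_apply,
        Module.End.one_apply, map_sub, map_sub, map_smul, map_smul, LinearMap.sub_apply,
        LinearMap.smul_apply, ← h1, add_smul]
      abel
    rw [e]
    refine Submodule.add_mem _ (ih (a' + 1) b' (by omega) x _ ?_ hv)
      (ih a' (b' + 1) (by omega) _ v hx ?_)
    · rw [pow_succ, Module.End.mul_apply]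
      exact hx
    · rw [pow_succ, Module.End.mul_apply]
      exact hv

end RepG

theorem rep_act {V : Type} [AddCommGroup V] [Module ℂ V] [FiniteDimensional ℂ V] {K : Type}
    [Field K] [NumberField K] {m : ℕ} (t : Fin m → K → Module.End ℂ V) (X Y : Module.End ℂ V)
    (ρ : ℂ →+ ℂ) (hY : ∀ μ, ∀ v ∈ Module.End.maxGenEigenspace X μ, Y v = ρ μ • v)
    {M N : (K →+* ℂ) → Matrix (Fin m) (Fin m) ℂ} (hM : ActM t X M) (hN : ActM t Y N)
    (σ : K →+* ℂ) (hinj : Function.Injective (tau (ts t σ))) (ν : ℂ) (x : Fin m → ℂ)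
    (hx : x ∈ Module.End.maxGenEigenspace (Matrix.toLin' (M σ)) ν) : N σ *ᵥ x = ρ ν • x := by
  apply hinj
  refine Pool.Agent.Helper65.Ball.ext_maxGen X _ _ fun μ v hv => ?_
  have h1 := LinearMap.congr_fun (hN σ x) v
  rw [← h1, map_smul, LinearMap.smul_apply, LinearMap.sub_apply, Module.End.mul_apply,
    Module.End.mul_apply, hY μ v hv, map_smul]
  have h2 : tau (ts t σ) x v ∈ X.maxGenEigenspace (μ + ν) := by
    obtain ⟨a, ha⟩ := (Module.End.mem_maxGenEigenspace _ _ _).mp hx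
    obtain ⟨b, hb⟩ := (Module.End.mem_maxGenEigenspace _ _ _).mp hv
    exact RepG.shift X (Matrix.toLin' (M σ)) (tau (ts t σ))
      (fun x => by rw [Matrix.toLin'_apply]; exact hM σ x) μ ν (a + b) a b le_rfl x v ha hb
  rw [hY _ _ h2, map_add, add_smul]
  abel

variable {I : Type} [Fintype I] [DecidableEq I] (n : I → ℕ) {κ : I → Type}
    [∀ i, Fintype (κ i)] [∀ i, DecidableEq (κ i)] {ϖ : ℂ} (hϖ : ϖ ≠ 0) (P : ∀ i, PData (κ i) ϖ)
    {k : ℕ} (γ : MultilinearMap ℂ (fun _ : Fin (2 * k) => HW κ n) ℂ)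
    (hB : ∀ v : Fin (2 * k) → HW κ n, (∀ r, IsRatP n P (v r)) → ∃ q : ℚ, γ v = ϖ ^ k * q)

theorem exists_rep (X : GG κ) (hX : IsInv n P γ X) (hX2 : X.2 = 0) (ρ : ℂ →+ ℂ) :
    ∃ Y : GG κ, IsInv n P γ Y ∧ Y.2 = 0 ∧
      ∀ i μ, ∀ v ∈ Module.End.maxGenEigenspace (X.1 i) μ, Y.1 i v = ρ μ • v := by
  choose Y hY using fun j => Pool.Agent.Helper65.Ball.M1a (X.1 j) ρ
  have hsum : ∀ {p : ℕ} (μ : Fin p → ℂ), ∑ i, μ i = 0 → ∑ i, ρ (μ i) = 0 := by
    intro p μ hμ
    rw [← map_sum, hμ, map_zero]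
  refine ⟨(Y, 0), ⟨?_, ?_, ?_⟩, rfl, hY⟩
  · intro j j' f hf v
    have h1 : (Y j') ∘ₗ f = f ∘ₗ (Y j) := by
      refine Pool.Agent.Helper65.Ball.ext_maxGen (X.1 j) _ _ fun μ v hv => ?_
      rw [LinearMap.comp_apply, LinearMap.comp_apply, hY j μ v hv, map_smul]
      exact hY j' μ _ (Pool.Agent.Helper65.Ball.maxGen_map (X.1 j) (X.1 j') f
        (fun v => hX.comm j j' f hf v) μ v hv)
    exact LinearMap.congr_fun h1 v
  · intro j u v
    let β : MultilinearMap ℂ (fun _ : Fin 2 => (κ j → ℂ)) ℂ :=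
      { toFun := fun w => (P j).ψ (w 0) (w 1)
        map_update_add' := by
          intro inst w r x y
          have hinst : inst = instDecidableEqFin 2 := Subsingleton.elim _ _
          subst hinst
          fin_cases r <;> simp [Function.update]
        map_update_smul' := by
          intro inst w r c x
          have hinst : inst = instDecidableEqFin 2 := Subsingleton.elim _ _
          subst hinst
          fin_cases r <;> simp [Function.update] }
    have hβ0 : ∀ (Z : Module.End ℂ (κ j → ℂ)) (w : Fin 2 → (κ j → ℂ)),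
        β (Function.update w 0 (Z (w 0))) = (P j).ψ (Z (w 0)) (w 1) := by
      intro Z w
      show (P j).ψ _ _ = _
      simp [Function.update]
    have hβ1 : ∀ (Z : Module.End ℂ (κ j → ℂ)) (w : Fin 2 → (κ j → ℂ)),
        β (Function.update w 1 (Z (w 1))) = (P j).ψ (w 0) (Z (w 1)) := by
      intro Z w
      show (P j).ψ _ _ = _
      simp [Function.update]
    have hinv : ∀ w : Fin 2 → (κ j → ℂ), ∑ r, β (Function.update w r (X.1 j (w r))) = 0 := by
      intro w
      rw [Fin.sum_univ_two, hβ0, hβ1, hX.pol, hX2, zero_mul]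
    have h := RepE.replica_add (X.1 j) ρ (fun μ h => hsum μ h) β hinv (Y j) (hY j) ![u, v]
    rw [Fin.sum_univ_two, hβ0, hβ1] at h
    show (P j).ψ (Y j u) v + (P j).ψ u (Y j v) = 0 * _
    rw [zero_mul]
    exact h
  · show actForm (lift n Y) γ = ((k : ℂ) * 0) • γ
    rw [mul_zero, zero_smul]
    apply MultilinearMap.ext
    intro v
    rw [actForm_apply, _root_.zero_apply]
    refine RepE.replica_add (lift n X.1) ρ (fun μ h => hsum μ h) γ (fun v => ?_) (lift n Y) ?_ v
    · rw [← actForm_apply, hX.form, hX2, mul_zero, zero_smul]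
      rfl
    · intro μ v hv
      funext j r
      rw [lift_apply]
      refine hY j μ (v j r) ?_
      let pr : HW κ n →ₗ[ℂ] (κ j → ℂ) :=
        { toFun := fun w => w j r
          map_add' := fun _ _ => rfl
          map_smul' := fun _ _ => rfl }
      exact Pool.Agent.Helper65.Ball.maxGen_map (lift n X.1) (X.1 j) pr (fun v => rfl) μ v hv

variable {K : I → Type} [∀ i, Field (K i)] [∀ i, NumberField (K i)] {c : ∀ i, K i →+* K i}
    {m : I → ℕ} {h : ∀ i, Matrix (Fin (m i)) (Fin (m i)) (K i)}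
    {t : ∀ i, Fin (m i) → K i → Module.End ℂ (κ i → ℂ)}
    (S : ∀ i, MD (P i) (c i) (h i) (t i))
    (hreal : ∀ i (σ : K i →+* ℂ), cj σ = σ)
    (hT : ∀ X : GG κ, IsInv n P γ X → ∀ i, ∃ M, ActM (t i) (X.1 i) M)

include S hreal hT in
/-- the replica of a family -/
theorem RRE_rep {M : ∀ p : PL K, Matrix (Fin (m p.1)) (Fin (m p.1)) ℂ}
    (hM : M ∈ RRE n P h t γ) (ρ : ℂ →+ ℂ) :
    ∃ N ∈ RRE n P h t γ, ∀ p : PL K, Nonempty (κ p.1) → ∀ ν,
      ∀ x ∈ Module.End.maxGenEigenspace (Matrix.toLin' (M p)) ν, N p *ᵥ x = ρ ν • x := by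
  obtain ⟨_, X, hX, hX2, hXM⟩ := hM
  obtain ⟨Y, hY, hY2, hYr⟩ := exists_rep n P γ X hX hX2 ρ
  obtain ⟨N, hN, hYN⟩ := exists_famE S hreal hT Y hY hY2
  refine ⟨N, hN, fun p hp ν x hx => ?_⟩
  exact rep_act (t p.1) (X.1 p.1) (Y.1 p.1) ρ (hYr p.1) (M := fun σ => M ⟨p.1, σ⟩)
    (N := fun σ => N ⟨p.1, σ⟩) (hXM p.1) (hYN p.1) p.2
    (tau_injE (S p.1).conj (S p.1).cliff (S p.1).nd p.2) ν x hx

end Pool.Agent.KSR
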