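import Pool.Agent.KSR.FamA

/-!
Module TransA. Transport of the Lie algebra of a Kuga-Satake structure by isometries.

Proof: by `Submodule.span_induction` on `Z` for the statement `∃ M Z' M', ActM t Z M ∧ Z' ∈ bvS t' ∧
F ∘ₗ Z = Z' ∘ₗ F ∧ ActM t' Z' M' ∧ ∀ σ, M' (φ σ) * g σ = g σ * M σ`. For the generator
`Z = ts t σ a * ts t σ b - ts t σ b * ts t σ a` (`cj σ = σ`): `Z' = [tau (ts t' (φ σ)) (g σ *ᵥ e_a), tau (..) (g σ *ᵥ e_b)]`
(in `bvS t'` by `tau_mem_bvS` in `Pool/Agent/KSE/AVE.lean`, copy it), and both act by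
`Z * tau (ts t ρ) x - tau (ts t ρ) x * Z = 0` for `ρ ≠ σ` and
`= 4 • (pr h σ e_b x • tau e_a - pr h σ e_a x • tau e_b)` for `ρ = σ`: this is
`[τx τy - τy τx, τz] = 4 (q(y,z) τx - q(x,z) τy)`, from `tau_pair`, `tau_anti` (see also `bva_bracket` in
`Pool/Agent/KSE/BvA.lean`, `KS.act_biv`); `φ` is injective, `pr h' (φ σ) (g σ *ᵥ x) (g σ *ᵥ y) = pr h σ x y` by
`hg`. The uniqueness of `M` (`ActM.unique`) turns this into the statement for the given `M`.
-/

namespace Pool.Agent.KSR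

open Module Matrix NumberField Pool.Agent.Helper7 Pool.Agent.KS Pool.Agent.Ball
  Pool.Agent.Helper28.GPC Pool.Agent.KSE

namespace TransA

section one

variable {V : Type} [AddCommGroup V] [Module ℂ V] {K : Type} [Field K] [NumberField K]
  {c : K →+* K} {m : ℕ} {h : Matrix (Fin m) (Fin m) K} {t : Fin m → K → Module.End ℂ V}

/-- the matrix of `z ↦ 4 q(y, z) x - 4 q(x, z) y` -/
noncomputable def WM (h : Matrix (Fin m) (Fin m) K) (σ : K →+* ℂ) (x y : Fin m → ℂ) :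
    Matrix (Fin m) (Fin m) ℂ :=
  Matrix.of fun a b => 4 * (x a * (y ᵥ* h.map σ) b - y a * (x ᵥ* h.map σ) b)

omit [NumberField K] in
lemma WM_mulVec (h : Matrix (Fin m) (Fin m) K) (σ : K →+* ℂ) (x y z : Fin m → ℂ) :
    WM h σ x y *ᵥ z = (4 * pr h σ y z) • x - (4 * pr h σ x z) • y := by
  have e : ∀ u : Fin m → ℂ, pr h σ u z = ∑ b, (u ᵥ* h.map σ) b * z b := by
    intro u
    rw [pr, Matrix.dotProduct_mulVec]
    rfl
  funext a
  rw [Matrix.mulVec, dotProduct, Pi.sub_apply, Pi.smul_apply, Pi.smul_apply, smul_eq_mul,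
    smul_eq_mul, e, e]
  simp only [WM, Matrix.of_apply, Finset.mul_sum, Finset.sum_mul]
  rw [← Finset.sum_sub_distrib]
  refine Finset.sum_congr rfl fun b _ => ?_
  ring

lemma comm_id {R : Type} [Ring R] (X Y Z : R) : (X * Y - Y * X) * Z - Z * (X * Y - Y * X) =
    X * (Y * Z + Z * Y) - (X * Z + Z * X) * Y - Y * (X * Z + Z * X) + (Y * Z + Z * Y) * X := by
  noncomm_ring

lemma act_gen [DecidableEq (K →+* ℂ)] (hconj : ∀ (σ : K →+* ℂ) (x : K), cj σ x = σ (c x))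
    (hcl : ∀ a b x y, t a x * t b y + t b y * t a x =
      (2 * ((Algebra.trace ℚ K (x * c y * h a b) : ℚ) : ℂ)) • 1)
    (hreal : ∀ σ : K →+* ℂ, cj σ = σ) (σ : K →+* ℂ) (x y : Fin m → ℂ) :
    ActM t (tau (ts t σ) x * tau (ts t σ) y - tau (ts t σ) y * tau (ts t σ) x)
      (fun τ => if τ = σ then WM h σ x y else 0) := by
  intro τ z
  rw [comm_id]
  show _ = tau (ts t τ) ((if τ = σ then WM h σ x y else 0) *ᵥ z)
  by_cases hτ : τ = σ
  · subst hτ
    have h1 := tau_pair hconj hcl τ y z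
    have h2 := tau_pair hconj hcl τ x z
    rw [hreal] at h1 h2
    rw [h1, h2, if_pos rfl, WM_mulVec, map_sub, map_smul, map_smul, mul_smul_comm, smul_mul_assoc,
      mul_smul_comm, smul_mul_assoc, mul_one, one_mul, mul_one, one_mul]
    module
  · have hτ' : τ ≠ cj σ := by rw [hreal]; exact hτ
    rw [tau_anti hconj hcl hτ', tau_anti hconj hcl hτ']
    rw [if_neg hτ, Matrix.zero_mulVec, map_zero]
    simp

lemma mem_bvS (hreal : ∀ σ : K →+* ℂ, cj σ = σ) (t : Fin m → K → Module.End ℂ V)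
    (σ : K →+* ℂ) (x y : Fin m → ℂ) :
    tau (ts t σ) x * tau (ts t σ) y - tau (ts t σ) y * tau (ts t σ) x ∈ bvS t := by
  have e2 : tau (ts t σ) x * tau (ts t σ) y - tau (ts t σ) y * tau (ts t σ) x =
      ∑ a, ∑ b, (x a * y b) • (ts t σ a * ts t (cj σ) b - ts t (cj σ) b * ts t σ a) := by
    rw [hreal, tau_apply, tau_apply, Finset.sum_mul_sum, Finset.sum_mul_sum,
      Finset.sum_comm (f := fun i j => y i • ts t σ i * x j • ts t σ j),
      ← Finset.sum_sub_distrib]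
    refine Finset.sum_congr rfl fun a _ => ?_
    rw [← Finset.sum_sub_distrib]
    refine Finset.sum_congr rfl fun b _ => ?_
    rw [smul_mul_smul_comm, smul_mul_smul_comm, mul_comm (y b), smul_sub]
  rw [e2]
  exact Submodule.sum_mem _ fun a _ => Submodule.sum_mem _ fun b _ =>
    Submodule.smul_mem _ _ (Submodule.subset_span ⟨σ, a, b, rfl⟩)

lemma tau_single (t : Fin m → K → Module.End ℂ V) (σ : K →+* ℂ) (a : Fin m) :
    tau (ts t σ) (Pi.single a 1) = ts t σ a := by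
  rw [tau_apply, Finset.sum_eq_single a]
  · rw [Pi.single_eq_same, one_smul]
  · intro b _ hb
    rw [Pi.single_eq_of_ne hb, zero_smul]
  · intro h
    exact absurd (Finset.mem_univ _) h

end one

end TransA

theorem trans_bvS {V V' : Type} [AddCommGroup V] [Module ℂ V] [AddCommGroup V'] [Module ℂ V']
    {K K' : Type} [Field K] [NumberField K] [Field K'] [NumberField K'] {c : K →+* K}
    {c' : K' →+* K'} {m m' : ℕ} {h : Matrix (Fin m) (Fin m) K} {h' : Matrix (Fin m') (Fin m') K'}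
    {t : Fin m → K → Module.End ℂ V} {t' : Fin m' → K' → Module.End ℂ V'}
    [Nontrivial V]
    (hconj : ∀ (σ : K →+* ℂ) (x : K), cj σ x = σ (c x)) (hnd : h.det ≠ 0)
    (hcl : ∀ a b x y, t a x * t b y + t b y * t a x =
      (2 * ((Algebra.trace ℚ K (x * c y * h a b) : ℚ) : ℂ)) • 1)
    (hconj' : ∀ (σ : K' →+* ℂ) (x : K'), cj σ x = σ (c' x))
    (hcl' : ∀ a b x y, t' a x * t' b y + t' b y * t' a x =
      (2 * ((Algebra.trace ℚ K' (x * c' y * h' a b) : ℚ) : ℂ)) • 1)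
    (hreal : ∀ σ : K →+* ℂ, cj σ = σ) (hreal' : ∀ σ : K' →+* ℂ, cj σ = σ)
    (φ : (K →+* ℂ) → (K' →+* ℂ)) (hφ : Function.Bijective φ)
    (g : (K →+* ℂ) → Matrix (Fin m') (Fin m) ℂ)
    (hg : ∀ σ, (g σ)ᵀ * h'.map (φ σ) * g σ = h.map σ)
    (F : V →ₗ[ℂ] V') (hF : ∀ σ x y, F ∘ₗ (tau (ts t σ) x * tau (ts t σ) y) =
      (tau (ts t' (φ σ)) (g σ *ᵥ x) * tau (ts t' (φ σ)) (g σ *ᵥ y)) ∘ₗ F)
    (Z : Module.End ℂ V) (hZ : Z ∈ bvS t) (M : (K →+* ℂ) → Matrix (Fin m) (Fin m) ℂ)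
    (hM : ActM t Z M) :
    ∃ (Z' : Module.End ℂ V') (M' : (K' →+* ℂ) → Matrix (Fin m') (Fin m') ℂ), Z' ∈ bvS t' ∧
      F ∘ₗ Z = Z' ∘ₗ F ∧ ActM t' Z' M' ∧ ∀ σ, M' (φ σ) * g σ = g σ * M σ := by
  classical
  have key : ∀ Z ∈ bvS t, ∃ (M : (K →+* ℂ) → Matrix (Fin m) (Fin m) ℂ) (Z' : Module.End ℂ V')
      (M' : (K' →+* ℂ) → Matrix (Fin m') (Fin m') ℂ), ActM t Z M ∧ Z' ∈ bvS t' ∧
      F ∘ₗ Z = Z' ∘ₗ F ∧ ActM t' Z' M' ∧ ∀ σ, M' (φ σ) * g σ = g σ * M σ := by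
    intro Z hZ
    rw [bvS] at hZ
    induction hZ using Submodule.span_induction with
    | mem Z hZ =>
      obtain ⟨σ, a, b, hab⟩ := hZ
      rw [hreal] at hab
      set x : Fin m → ℂ := Pi.single a 1 with hx
      set y : Fin m → ℂ := Pi.single b 1 with hy
      have hab' : Z = tau (ts t σ) x * tau (ts t σ) y - tau (ts t σ) y * tau (ts t σ) x := by
        rw [hab, hx, hy, TransA.tau_single, TransA.tau_single]
      refine ⟨_, tau (ts t' (φ σ)) (g σ *ᵥ x) * tau (ts t' (φ σ)) (g σ *ᵥ y) -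
        tau (ts t' (φ σ)) (g σ *ᵥ y) * tau (ts t' (φ σ)) (g σ *ᵥ x), _,
        hab' ▸ TransA.act_gen hconj hcl hreal σ x y,
        TransA.mem_bvS hreal' t' (φ σ) _ _, ?_, TransA.act_gen hconj' hcl' hreal' (φ σ) _ _, ?_⟩
      · rw [hab', LinearMap.comp_sub, LinearMap.sub_comp, hF, hF]
      · intro τ
        by_cases hτ : τ = σ
        · rw [if_pos (congrArg φ hτ), if_pos hτ, hτ]
          apply Matrix.toLin'.injective
          apply LinearMap.ext
          intro z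
          have hpr : ∀ u, pr h' (φ σ) (g σ *ᵥ u) (g σ *ᵥ z) = pr h σ u z := by
            intro u
            rw [pr, pr, ← hg σ, Matrix.dotProduct_mulVec, ← Matrix.mulVec_mulVec,
              ← Matrix.mulVec_mulVec, Matrix.dotProduct_mulVec u, Matrix.vecMul_transpose,
              Matrix.dotProduct_mulVec (g σ *ᵥ u)]
          rw [Matrix.toLin'_apply, Matrix.toLin'_apply, ← Matrix.mulVec_mulVec,
            ← Matrix.mulVec_mulVec, TransA.WM_mulVec, TransA.WM_mulVec, hpr, hpr,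
            Matrix.mulVec_sub, Matrix.mulVec_smul, Matrix.mulVec_smul]
        · rw [if_neg (fun h => hτ (hφ.1 h)), if_neg hτ, Matrix.zero_mul, Matrix.mul_zero]
    | zero =>
      refine ⟨0, 0, 0, ActM.zero, Submodule.zero_mem _, ?_, ActM.zero, ?_⟩
      · rw [LinearMap.comp_zero, LinearMap.zero_comp]
      · intro σ
        rw [Pi.zero_apply, Pi.zero_apply, Matrix.zero_mul, Matrix.mul_zero]
    | add Z₁ Z₂ _ _ h1 h2 =>
      obtain ⟨M₁, Z₁', M₁', a1, a2, a3, a4, a5⟩ := h1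
      obtain ⟨M₂, Z₂', M₂', b1, b2, b3, b4, b5⟩ := h2
      refine ⟨M₁ + M₂, Z₁' + Z₂', M₁' + M₂', a1.add b1, Submodule.add_mem _ a2 b2, ?_,
        a4.add b4, ?_⟩
      · rw [LinearMap.comp_add, LinearMap.add_comp, a3, b3]
      · intro σ
        rw [Pi.add_apply, Pi.add_apply, Matrix.add_mul, Matrix.mul_add, a5, b5]
    | smul r Z _ h1 =>
      obtain ⟨M₁, Z₁', M₁', a1, a2, a3, a4, a5⟩ := h1
      refine ⟨r • M₁, r • Z₁', r • M₁', a1.smul r, Submodule.smul_mem _ _ a2, ?_, a4.smul r, ?_⟩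
      · rw [LinearMap.comp_smul, LinearMap.smul_comp, a3]
      · intro σ
        rw [Pi.smul_apply, Pi.smul_apply, Matrix.smul_mul, Matrix.mul_smul, a5]
  obtain ⟨M₁, Z', M', h1, h2, h3, h4, h5⟩ := key Z hZ
  have hMM : M₁ = M := ActM.unique hconj hcl hnd h1 hM
  rw [hMM] at h5
  exact ⟨Z', M', h2, h3, h4, h5⟩

end Pool.Agent.KSR
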